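import Pool.Agent.U996.UW.Full

/-!
# Mean squares over a dyadic block with arbitrary weights, uniform in a large dilation
-/

set_option autoImplicit false

namespace Pool.Agent.U996.EH

open Finset MeasureTheory Filter Topology FourierTransform
open scoped ENNReal
open Pool.Agent.H376R2.MR (er)
open Pool.Agent.Y957.AD (er_norm er_add er_zero PolyVar)
open Pool.Agent.Y957.VK
open Pool.Agent.Y220.VK (freq_bd log_pow_le)
open Pool.Agent.U996.UW

theorem block_u (A : ℝ → ℂ) (hA1 : ∀ x, ‖A x‖ ≤ 1) (hAm : Measurable A) (hAv : PolyVar A) (hAw : WNeg A)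
    (c : ℝ) (hc : 0 < c) (K B : ℕ) : ∃ C : ℝ, 0 ≤ C ∧ ∀ (N N' : ℕ), 2 ≤ N → N ≤ N' → N' ≤ 2 * N →
      ∀ b : ℝ, -(B : ℝ) ≤ b → b ≤ B * (1 + Real.log N) → ∀ w : ℕ → ℂ, (∀ n, ‖w n‖ ≤ 1) →
        ∫⁻ u in Set.Icc (0 : ℝ) 1, ‖∑ n ∈ Ioc N N', w n * A (Real.exp (b + u) * (n : ℝ) ^ c)‖ₑ ^ 2 ≤
          ENNReal.ofReal (C * N ^ 2 / Real.log N ^ K) := by
  have hπ := Real.pi_pos
  have hl2 : 0 < Real.log 2 := Real.log_pos (by norm_num)
  have hB0 : (0 : ℝ) ≤ B := Nat.cast_nonneg B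
  obtain ⟨C1, D, hC1, hD, hwin⟩ := win_u A hA1 hAm hAv
  obtain ⟨L, hL⟩ : ∃ L : ℝ, L = 1 + c * Real.log 2 := ⟨_, rfl⟩
  have hL0 : 0 ≤ L := by rw [hL]; positivity
  obtain ⟨a, ha⟩ : ∃ a : ℕ, D * (B + c) ≤ a := ⟨⌈D * (B + c)⌉₊, Nat.le_ceil _⟩
  obtain ⟨E, hE⟩ : ∃ E : ℝ, E = (2 + C1 * Real.exp (D * B)) * Real.exp (D * L) := ⟨_, rfl⟩
  have hE0 : 0 ≤ E := by rw [hE]; positivity
  obtain ⟨k, hk⟩ : ∃ k : ℕ, (2 * c) * (2 * Real.pi) * (1 + E) ^ 2 ≤ k := ⟨⌈_⌉₊, Nat.le_ceil _⟩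
  obtain ⟨k2, hk2⟩ : ∃ k : ℕ, 1 * (2 * Real.pi) * (1 + E) ^ 2 ≤ k := ⟨⌈_⌉₊, Nat.le_ceil _⟩
  obtain ⟨A1, hA1'⟩ : ∃ A1 : ℕ, A1 = 0 + k + 2 * a + 2 := ⟨_, rfl⟩
  obtain ⟨A2, hA2'⟩ : ∃ A2 : ℕ, A2 = 0 + k2 + 2 * a + 2 := ⟨_, rfl⟩
  obtain ⟨Z, δ, hZ, hδ, hδ1, hz⟩ := zall A1
  obtain ⟨P, hP⟩ : ∃ P : ℕ, 2 * A2 / c ≤ P := ⟨⌈2 * A2 / c⌉₊, Nat.le_ceil _⟩
  obtain ⟨CW, hCW, hW⟩ := hAw P (K + 1) L hL0
  obtain ⟨lam, hlam⟩ : ∃ lam : ℝ, lam = 2 * max (B : ℝ) 1 / c := ⟨_, rfl⟩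
  have hmax1 : 1 ≤ max (B : ℝ) 1 := le_max_right _ _
  have hlam0 : 0 ≤ lam := by rw [hlam]; positivity
  obtain ⟨Q1, hQ1⟩ : ∃ Q1 : ℝ, Q1 = Z * (CW ^ 2 * (2 / c) ^ (2 * (K + 1)) *
      (2 * (A1 + 1) / (2 * Real.pi * c)) * 2 ^ (K + 1)) := ⟨_, rfl⟩
  obtain ⟨Q2, hQ2⟩ : ∃ Q2 : ℝ, Q2 = Z * (K.factorial / δ ^ K * L) := ⟨_, rfl⟩
  have hQ1p : 0 ≤ Q1 := by rw [hQ1]; positivity
  have hQ2p : 0 ≤ Q2 := by rw [hQ2]; positivity
  refine ⟨Q1 + Q2 + K.factorial + lam ^ K, by positivity, ?_⟩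
  intro N N' hN hNN hNN' b hb1 hb2 w hw
  have hNr : (2 : ℝ) ≤ N := by exact_mod_cast hN
  have hN0 : (0 : ℝ) < N := by linarith
  have hN1 : (1 : ℝ) ≤ N := by linarith
  have hlog : 1 / 2 ≤ Real.log N := by
    have h3 : Real.log 2 ≤ Real.log N := Real.log_le_log (by norm_num) hNr
    have h4 := Real.log_two_gt_d9
    linarith
  have hlog0 : 0 < Real.log N := by linarith
  have hlK : 0 < Real.log N ^ K := by positivity
  have hcard : ((Ioc N N').card : ℝ) ≤ N := by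
    rw [Nat.card_Ioc, Nat.cast_sub hNN]
    have : (N' : ℝ) ≤ 2 * N := by exact_mod_cast hNN'
    linarith
  have hbabs : |b| ≤ B * (1 + Real.log N) := by
    rw [abs_le]
    refine ⟨?_, hb2⟩
    have : (B : ℝ) ≤ B * (1 + Real.log N) := le_mul_of_one_le_right hB0 (by linarith)
    linarith
  rcases lt_or_ge (Real.log N) lam with hs | hs
  · -- small N
    refine (triv_sum A hA1 (Ioc N N') w hw fun u n => Real.exp (b + u) * (n : ℝ) ^ c).trans ?_
    apply ENNReal.ofReal_le_ofReal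
    have h1 : ((Ioc N N').card : ℝ) ^ 2 ≤ (N : ℝ) ^ 2 := pow_le_pow_left₀ (Nat.cast_nonneg _) hcard 2
    have h2 : Real.log N ^ K ≤ lam ^ K := pow_le_pow_left₀ hlog0.le hs.le K
    refine h1.trans ?_
    rw [le_div_iff₀ hlK]
    have h3 : (N : ℝ) ^ 2 * Real.log N ^ K ≤ (N : ℝ) ^ 2 * lam ^ K :=
      mul_le_mul_of_nonneg_left h2 (by positivity)
    have h4 : 0 ≤ (Q1 + Q2 + K.factorial) * (N : ℝ) ^ 2 := by positivity
    refine h3.trans ?_
    rw [show (Q1 + Q2 + K.factorial + lam ^ K) * (N : ℝ) ^ 2 =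
      (Q1 + Q2 + K.factorial) * (N : ℝ) ^ 2 + (N : ℝ) ^ 2 * lam ^ K by ring]
    exact le_add_of_nonneg_left h4
  · -- large N
    obtain ⟨x, hx⟩ : ∃ x : ℝ, x = b + c * Real.log N := ⟨_, rfl⟩
    have hcl : 2 * max (B : ℝ) 1 ≤ c * Real.log N := by
      rw [hlam, div_le_iff₀ hc] at hs
      linarith
    have hBm : (B : ℝ) ≤ max (B : ℝ) 1 := le_max_left _ _
    have hx1 : 1 ≤ x := by rw [hx]; linarith
    have hx2 : c / 2 * Real.log N ≤ x := by rw [hx]; linarith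
    have hxabs : |x| ≤ B + (B + c) * Real.log N := by
      rw [hx]
      refine (abs_add_le _ _).trans ?_
      rw [abs_of_nonneg (show 0 ≤ c * Real.log N by positivity)]
      linarith
    obtain ⟨V, hV⟩ : ∃ V : ℝ, V = (2 + C1 * Real.exp (D * |x|)) * Real.exp (D * L) := ⟨_, rfl⟩
    have hV0 : 0 ≤ V := by rw [hV]; positivity
    have hNa : (1 : ℝ) ≤ (N : ℝ) ^ a := one_le_pow₀ hN1
    have hVN : V ≤ E * (N : ℝ) ^ a := by
      have e1 : Real.exp (D * |x|) ≤ Real.exp (D * B) * (N : ℝ) ^ a := by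
        calc Real.exp (D * |x|) ≤ Real.exp (D * (B + (B + c) * Real.log N)) :=
              Real.exp_le_exp.2 (mul_le_mul_of_nonneg_left hxabs hD)
          _ = Real.exp (D * B) * (N : ℝ) ^ (D * (B + c)) := by
              rw [Real.rpow_def_of_pos hN0, ← Real.exp_add]
              congr 1
              ring
          _ ≤ _ := by
              apply mul_le_mul_of_nonneg_left _ (Real.exp_pos _).le
              rw [← Real.rpow_natCast]
              exact Real.rpow_le_rpow_of_exponent_le hN1 ha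
      rw [hV, hE, mul_assoc _ (Real.exp (D * L)), mul_comm (Real.exp (D * L)), ← mul_assoc]
      apply mul_le_mul_of_nonneg_right _ (Real.exp_pos _).le
      have e2 := mul_le_mul_of_nonneg_left e1 hC1
      calc 2 + C1 * Real.exp (D * |x|) ≤
            2 * (N : ℝ) ^ a + C1 * (Real.exp (D * B) * (N : ℝ) ^ a) :=
            add_le_add (le_mul_of_one_le_right (by norm_num) hNa) e2
        _ = _ := by ring
    obtain ⟨T, hTdef⟩ : ∃ T : ℝ, T = (1 + V) ^ 2 * N := ⟨_, rfl⟩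
    have hT1 : 1 ≤ T := by
      rw [hTdef]
      exact one_le_mul_of_one_le_of_one_le (one_le_pow₀ (by linarith)) hN1
    have hT0 : 0 < T := by linarith
    have hf1 : 2 * (2 * Real.pi * c * T) ≤ (N : ℝ) ^ A1 := by
      have h := freq_bd (N := N) (A0 := 0) (k := k) (a := a) (c := 2 * c) (E := E) (V := V)
        (M := (2 * c) * (2 * Real.pi) * (1 + E) ^ 2) (τ := 0) (ξ := 2 * Real.pi * T) hNr (by positivity)
        hE0 hV0 hVN rfl hk (by simp) (by
          rw [abs_of_pos (by positivity), hTdef])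
      rw [zero_add, abs_of_pos (by positivity), ← hA1'] at h
      calc 2 * (2 * Real.pi * c * T) = 2 * c * (2 * Real.pi * T) := by ring
        _ ≤ _ := h
    have hf2 : 2 * Real.pi * T ≤ (N : ℝ) ^ A2 := by
      have h := freq_bd (N := N) (A0 := 0) (k := k2) (a := a) (c := 1) (E := E) (V := V)
        (M := 1 * (2 * Real.pi) * (1 + E) ^ 2) (τ := 0) (ξ := 2 * Real.pi * T) hNr (by positivity)
        hE0 hV0 hVN rfl hk2 (by simp) (by
          rw [abs_of_pos (by positivity), hTdef])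
      rw [zero_add, one_mul, abs_of_pos (by positivity), ← hA2'] at h
      exact h
    obtain ⟨β, hβ⟩ : ∃ β : ℝ, β = CW / x ^ (K + 1) := ⟨_, rfl⟩
    have hβ0 : 0 ≤ β := by rw [hβ]; positivity
    have hb : ∀ ξ, |ξ| ≤ T → ‖𝓕 (Bw A x L) ξ‖ ≤ β := by
      intro ξ hξ
      rw [four_win A x L ξ hL0, hβ]
      refine hW x _ hx1 ?_
      rw [abs_neg, abs_mul, abs_of_pos (show (0 : ℝ) < 2 * Real.pi by positivity)]
      calc 2 * Real.pi * |ξ| ≤ 2 * Real.pi * T := mul_le_mul_of_nonneg_left hξ (by positivity)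
        _ ≤ (N : ℝ) ^ A2 := hf2
        _ = Real.exp (A2 * Real.log N) := by
            rw [← Real.rpow_natCast, Real.rpow_def_of_pos hN0, mul_comm]
        _ ≤ Real.exp (P * x) := by
            apply Real.exp_le_exp.2
            have h1 : 2 * A2 / c * (c / 2 * Real.log N) ≤ P * x :=
              mul_le_mul hP hx2 (by positivity) (Nat.cast_nonneg _)
            have e1 : 2 * A2 / c * (c / 2 * Real.log N) = A2 * Real.log N := by field_simp
            linarith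
    have hzz : ∀ τ : ℝ, |τ| ≤ 2 * (2 * Real.pi * c * T) →
        ‖∑ n ∈ Ioc N N', er τ (Real.log n)‖ ≤ Z * (N / (1 + |τ|) + (N : ℝ) ^ (1 - δ)) :=
      fun τ hτ => hz N N' τ hN hNN hNN' (hτ.trans hf1)
    have hVV : ∀ s, 0 ≤ s → s ≤ 1 → ∫ y, ‖Bw A x L (y + s) - Bw A x L y‖ ≤ V * s := by
      intro s hs0 hs1
      rw [hV]
      exact hwin x L s hL0 hs0 hs1
    have hmain := block_abs A hA1 hAm N N' (by omega) hNN hNN' hc hL hT1 hβ0 hZ.le
      (Real.rpow_nonneg hN0.le (1 - δ)) hVV hb hzz rfl w hw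
    have e0 : ∀ u : ℝ, x - c * Real.log N + u = b + u := fun u => by rw [hx]; ring
    simp only [e0] at hmain
    refine hmain.trans (ENNReal.ofReal_le_ofReal ?_)
    -- numerics
    have hfirst : (N : ℝ) * (Z * (N * β ^ 2 * (2 * Real.log (1 + 2 * (2 * Real.pi * c) * T) /
        (2 * Real.pi * c)))) ≤ Q1 * N ^ 2 / Real.log N ^ K := by
      have h1 : Real.log (1 + 2 * (2 * Real.pi * c) * T) ≤ (A1 + 1) * Real.log N := by
        have h2 : 1 + 2 * (2 * Real.pi * c) * T ≤ (N : ℝ) ^ (A1 + 1) := by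
          have h3 : (1 : ℝ) ≤ (N : ℝ) ^ A1 := one_le_pow₀ hN1
          have h4 : 2 * (2 * Real.pi * c) * T = 2 * (2 * Real.pi * c * T) := by ring
          rw [h4, pow_succ]
          calc 1 + 2 * (2 * Real.pi * c * T) ≤ (N : ℝ) ^ A1 + (N : ℝ) ^ A1 := add_le_add h3 hf1
            _ = (N : ℝ) ^ A1 * 2 := by ring
            _ ≤ (N : ℝ) ^ A1 * N := mul_le_mul_of_nonneg_left hNr (by positivity)
        have h5 := Real.log_le_log (by positivity) h2
        rw [Real.log_pow] at h5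
        push_cast at h5
        exact h5
      have h2 : β ^ 2 ≤ CW ^ 2 * (2 / c) ^ (2 * (K + 1)) / Real.log N ^ (2 * (K + 1)) := by
        rw [hβ, div_pow, ← pow_mul, mul_comm (K + 1) 2]
        have h3 : (c / 2 * Real.log N) ^ (2 * (K + 1)) ≤ x ^ (2 * (K + 1)) :=
          pow_le_pow_left₀ (by positivity) hx2 _
        calc CW ^ 2 / x ^ (2 * (K + 1)) ≤ CW ^ 2 / (c / 2 * Real.log N) ^ (2 * (K + 1)) :=
              div_le_div_of_nonneg_left (by positivity) (by positivity) h3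
          _ = _ := by
              rw [mul_pow, div_pow, div_pow]
              field_simp
      have h6 : (1 : ℝ) ≤ 2 ^ (K + 1) * Real.log N ^ (K + 1) := by
        rw [← mul_pow]
        exact one_le_pow₀ (by linarith)
      have h7 : 2 * Real.log (1 + 2 * (2 * Real.pi * c) * T) / (2 * Real.pi * c) ≤
          2 * ((A1 + 1) * Real.log N) / (2 * Real.pi * c) := by
        apply div_le_div_of_nonneg_right _ (by positivity)
        linarith
      have hlg0 : 0 ≤ Real.log (1 + 2 * (2 * Real.pi * c) * T) := by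
        apply Real.log_nonneg
        have : 0 ≤ 2 * (2 * Real.pi * c) * T := by positivity
        linarith
      calc (N : ℝ) * (Z * (N * β ^ 2 * (2 * Real.log (1 + 2 * (2 * Real.pi * c) * T) /
            (2 * Real.pi * c)))) ≤
            N * (Z * (N * (CW ^ 2 * (2 / c) ^ (2 * (K + 1)) / Real.log N ^ (2 * (K + 1))) *
              (2 * ((A1 + 1) * Real.log N) / (2 * Real.pi * c)))) := by
            apply mul_le_mul_of_nonneg_left _ hN0.le
            apply mul_le_mul_of_nonneg_left _ hZ.le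
            refine mul_le_mul ?_ h7 (by positivity) (by positivity)
            exact mul_le_mul_of_nonneg_left h2 hN0.le
        _ = Z * (CW ^ 2 * (2 / c) ^ (2 * (K + 1)) * (2 * (A1 + 1) / (2 * Real.pi * c))) * N ^ 2 *
              (1 / (Real.log N ^ K * Real.log N ^ (K + 1))) := by
            have e1 : Real.log N ^ (2 * (K + 1)) = Real.log N * (Real.log N ^ K * Real.log N ^ (K + 1)) := by
              ring
            rw [e1]
            field_simp
        _ ≤ Z * (CW ^ 2 * (2 / c) ^ (2 * (K + 1)) * (2 * (A1 + 1) / (2 * Real.pi * c))) * N ^ 2 *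
              (2 ^ (K + 1) / Real.log N ^ K) := by
            apply mul_le_mul_of_nonneg_left _ (by positivity)
            rw [div_le_div_iff₀ (by positivity) (by positivity)]
            have := mul_le_mul_of_nonneg_right h6 hlK.le
            calc 1 * Real.log N ^ K ≤ 2 ^ (K + 1) * Real.log N ^ (K + 1) * Real.log N ^ K := this
              _ = _ := by ring
        _ = _ := by
            rw [hQ1]
            ring
    have hsecond : (N : ℝ) * (Z * ((N : ℝ) ^ (1 - δ) * L)) ≤ Q2 * N ^ 2 / Real.log N ^ K := by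
      have h1 := log_pow_le_rpow K hδ hN1
      have h2 : (N : ℝ) ^ (1 - δ) * (N : ℝ) ^ δ = N := by
        rw [← Real.rpow_add hN0, sub_add_cancel, Real.rpow_one]
      rw [le_div_iff₀ hlK]
      calc (N : ℝ) * (Z * ((N : ℝ) ^ (1 - δ) * L)) * Real.log N ^ K ≤
            (N : ℝ) * (Z * ((N : ℝ) ^ (1 - δ) * L)) * (K.factorial / δ ^ K * (N : ℝ) ^ δ) :=
            mul_le_mul_of_nonneg_left h1 (by positivity)
        _ = Z * (K.factorial / δ ^ K * L) * N * ((N : ℝ) ^ (1 - δ) * (N : ℝ) ^ δ) := by ring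
        _ = _ := by rw [h2, hQ2]; ring
    have hthird : (N : ℝ) ^ 2 * V ^ 2 / 8 / T ≤ K.factorial * N ^ 2 / Real.log N ^ K := by
      have h3 : V ^ 2 / (1 + V) ^ 2 ≤ 1 := by
        rw [div_le_one (by positivity)]
        exact pow_le_pow_left₀ hV0 (by linarith) 2
      have h4 : (N : ℝ) ^ 2 * V ^ 2 / 8 / T = N / 8 * (V ^ 2 / (1 + V) ^ 2) := by
        rw [hTdef]
        have : (1 + V) ≠ 0 := by positivity
        field_simp
      rw [h4, le_div_iff₀ hlK]
      have h5 := log_pow_le K hN1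
      calc N / 8 * (V ^ 2 / (1 + V) ^ 2) * Real.log N ^ K ≤ N / 8 * 1 * (K.factorial * N) := by
            refine mul_le_mul (mul_le_mul_of_nonneg_left h3 (by positivity)) h5 hlK.le (by positivity)
        _ ≤ _ := by
            have : 0 ≤ (K.factorial : ℝ) * N ^ 2 := by positivity
            calc (N : ℝ) / 8 * 1 * (K.factorial * N) = (K.factorial : ℝ) * N ^ 2 / 8 := by ring
              _ ≤ _ := by linarith
    have hlast : 0 ≤ lam ^ K * (N : ℝ) ^ 2 / Real.log N ^ K := by positivity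
    calc (N : ℝ) * (Z * (N * β ^ 2 * (2 * Real.log (1 + 2 * (2 * Real.pi * c) * T) / (2 * Real.pi * c)) +
          (N : ℝ) ^ (1 - δ) * L)) + N ^ 2 * V ^ 2 / 8 / T =
          (N : ℝ) * (Z * (N * β ^ 2 * (2 * Real.log (1 + 2 * (2 * Real.pi * c) * T) /
            (2 * Real.pi * c)))) + (N : ℝ) * (Z * ((N : ℝ) ^ (1 - δ) * L)) +
            (N : ℝ) ^ 2 * V ^ 2 / 8 / T := by ring
      _ ≤ Q1 * N ^ 2 / Real.log N ^ K + Q2 * N ^ 2 / Real.log N ^ K +
            K.factorial * N ^ 2 / Real.log N ^ K + lam ^ K * (N : ℝ) ^ 2 / Real.log N ^ K := by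
          linarith
      _ = _ := by ring

end Pool.Agent.U996.EH
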