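import Pool.Agent.U996.UW.One

/-!
# The main term: the density of the primes on a real progression and the logarithmic integral
-/

set_option autoImplicit false

namespace Pool.Agent.U996.EH

open Finset MeasureTheory Filter Topology
open Pool.Agent.U996.UW

/-- the logarithmic integral, `0` below `2` -/
noncomputable def Li (x : ℝ) : ℝ := ∫ t in (2 : ℝ)..(max x 2), 1 / Real.log t

theorem inv_log_anti : AntitoneOn (fun t : ℝ => 1 / Real.log t) (Set.Ici 2) := by
  intro a ha b hb hab
  have ha2 : (2 : ℝ) ≤ a := ha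
  have h1 : 0 < Real.log a := Real.log_pos (by linarith)
  exact one_div_le_one_div_of_le h1 (Real.log_le_log (by linarith) hab)

theorem inv_log_int (a b : ℝ) (ha : 2 ≤ a) (hb : 2 ≤ b) :
    IntervalIntegrable (fun t : ℝ => 1 / Real.log t) volume a b := by
  apply (inv_log_anti.mono _).intervalIntegrable
  intro x hx
  have : min a b ≤ x := hx.1
  exact (le_min ha hb).trans this

theorem Li_sub (a b : ℝ) (ha : 2 ≤ a) (hab : a ≤ b) :
    (b - a) / Real.log b ≤ Li b - Li a ∧ Li b - Li a ≤ (b - a) / Real.log a := by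
  have hb : 2 ≤ b := ha.trans hab
  have e : Li b - Li a = ∫ t in a..b, 1 / Real.log t := by
    unfold Li
    rw [max_eq_left ha, max_eq_left hb]
    exact intervalIntegral.integral_interval_sub_left (inv_log_int 2 b le_rfl hb) (inv_log_int 2 a le_rfl ha)
  rw [e]
  constructor
  · have h1 : ∫ _t in a..b, 1 / Real.log b ≤ ∫ t in a..b, 1 / Real.log t := by
      refine intervalIntegral.integral_mono_on hab intervalIntegrable_const (inv_log_int a b ha hb) ?_
      intro x hx
      exact inv_log_anti (show (2 : ℝ) ≤ x from ha.trans hx.1) (show (2 : ℝ) ≤ b from hb) hx.2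
    rw [intervalIntegral.integral_const, smul_eq_mul] at h1
    rw [div_eq_mul_one_div]
    exact h1
  · have h1 : ∫ t in a..b, 1 / Real.log t ≤ ∫ _t in a..b, 1 / Real.log a := by
      refine intervalIntegral.integral_mono_on hab (inv_log_int a b ha hb) intervalIntegrable_const ?_
      intro x hx
      exact inv_log_anti (show (2 : ℝ) ≤ a from ha) (show (2 : ℝ) ≤ x from ha.trans hx.1) hx.1
    rw [intervalIntegral.integral_const, smul_eq_mul] at h1
    rw [div_eq_mul_one_div]
    exact h1

theorem Li_low (x : ℝ) (hx : x ≤ 2) : Li x = 0 := by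
  unfold Li
  rw [max_eq_right hx, intervalIntegral.integral_same]

theorem Li_mono : Monotone Li := by
  intro x y hxy
  rcases le_total x 2 with hx | hx
  · rcases le_total y 2 with hy | hy
    · rw [Li_low x hx, Li_low y hy]
    · have h1 := (Li_sub 2 y le_rfl hy).1
      rw [Li_low x hx]
      rw [Li_low 2 le_rfl] at h1
      have h2 : 0 ≤ (y - 2) / Real.log y :=
        div_nonneg (by linarith) (Real.log_nonneg (by linarith))
      linarith
  · have h1 := (Li_sub x y hx hxy).1
    have h2 : 0 ≤ (y - x) / Real.log y :=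
      div_nonneg (by linarith) (Real.log_nonneg (by linarith))
    linarith

theorem Li_nonneg (x : ℝ) : 0 ≤ Li x := by
  rcases le_total x 2 with hx | hx
  · rw [Li_low x hx]
  · rw [← Li_low 2 le_rfl]
    exact Li_mono hx

theorem Li_le (x : ℝ) (hx : 2 ≤ x) : Li x ≤ 2 * (x - 2) := by
  have h1 := (Li_sub 2 x le_rfl hx).2
  rw [Li_low 2 le_rfl, sub_zero] at h1
  refine h1.trans ?_
  have h2 := Real.log_two_gt_d9
  rw [div_le_iff₀ (by linarith)]
  nlinarith

/-- the sum of the densities along `⌊β m⌋ + h` -/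
noncomputable def rsum (β : ℝ) (h : ℤ) (M : ℕ) : ℝ := ∑ m ∈ Icc 1 M, rz (⌊β * m⌋ + h)

theorem rsum_succ (β : ℝ) (h : ℤ) (M : ℕ) :
    rsum β h (M + 1) = rsum β h M + rz (⌊β * ((M + 1 : ℕ) : ℝ)⌋ + h) := by
  unfold rsum
  rw [Finset.sum_Icc_succ_top (by omega)]

theorem rsum_nonneg (β : ℝ) (h : ℤ) (M : ℕ) : 0 ≤ rsum β h M :=
  Finset.sum_nonneg fun _ _ => rz_nonneg _

theorem rsum_up (β : ℝ) (hβ : 0 < β) (h : ℤ) (M : ℕ) :
    (β * M + h < 3 → rsum β h M ≤ 0) ∧ rsum β h M ≤ 1 + 1 / β * Li (β * M + h - 1) := by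
  have hb : 0 ≤ 1 / β := by positivity
  induction M with
  | zero =>
    have e : rsum β h 0 = 0 := by unfold rsum; simp
    rw [e]
    have := mul_nonneg hb (Li_nonneg (β * ((0 : ℕ) : ℝ) + h - 1))
    exact ⟨fun _ => le_rfl, by linarith⟩
  | succ M ih =>
    obtain ⟨ih1, ih2⟩ := ih
    obtain ⟨t, ht⟩ : ∃ t : ℝ, t = β * M + h := ⟨_, rfl⟩
    have ht' : β * ((M + 1 : ℕ) : ℝ) + h = t + β := by
      rw [ht]
      push_cast
      ring
    rw [← ht] at ih1 ih2
    rw [ht', rsum_succ]
    obtain ⟨z, hz⟩ : ∃ z : ℤ, z = ⌊β * ((M + 1 : ℕ) : ℝ)⌋ + h := ⟨_, rfl⟩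
    have hz1 : (z : ℝ) ≤ t + β := by
      rw [hz, ← ht']
      push_cast
      linarith [Int.floor_le (β * ((M : ℝ) + 1))]
    have hz2 : t + β - 1 < z := by
      rw [hz, ← ht']
      push_cast
      linarith [Int.sub_one_lt_floor (β * ((M : ℝ) + 1))]
    rw [← hz]
    have hr1 := rz_le_one z
    constructor
    · intro h3
      have h4 : ¬ 3 ≤ z := by
        intro h5
        have h6 : (3 : ℝ) ≤ z := by exact_mod_cast h5
        linarith
      unfold rz
      rw [if_neg h4, add_zero]
      exact ih1 (by linarith)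
    · rcases lt_or_ge t 3 with h3 | h3
      · have h4 := ih1 h3
        have h5 := mul_nonneg hb (Li_nonneg (t + β - 1))
        linarith
      · have h4 := (Li_sub (t - 1) (t + β - 1) (by linarith) (by linarith)).1
        have h5 : 0 < Real.log (t + β - 1) := Real.log_pos (by linarith)
        have h6 : rz z ≤ 1 / Real.log (t + β - 1) := by
          unfold rz
          split_ifs with h7
          · exact one_div_le_one_div_of_le h5 (Real.log_le_log (by linarith) hz2.le)
          · positivity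
        have h7 : 1 / Real.log (t + β - 1) ≤ 1 / β * (Li (t + β - 1) - Li (t - 1)) := by
          calc 1 / Real.log (t + β - 1) = 1 / β * ((t + β - 1 - (t - 1)) / Real.log (t + β - 1)) := by
                rw [show t + β - 1 - (t - 1) = β by ring]
                field_simp
            _ ≤ _ := mul_le_mul_of_nonneg_left h4 hb
        rw [mul_sub] at h7
        linarith

theorem rsum_low (β : ℝ) (hβ : 0 < β) (h : ℤ) (M : ℕ) :
    1 / β * (Li (β * ((M + 1 : ℕ) : ℝ) + h) - Li (3 + β + |(h : ℝ)|)) ≤ rsum β h M := by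
  have hb : 0 ≤ 1 / β := by positivity
  have ha := le_abs_self (h : ℝ)
  have hp := abs_nonneg (h : ℝ)
  induction M with
  | zero =>
    refine le_trans ?_ (rsum_nonneg β h 0)
    apply mul_nonpos_of_nonneg_of_nonpos hb
    have : Li (β * ((0 + 1 : ℕ) : ℝ) + h) ≤ Li (3 + β + |(h : ℝ)|) := by
      apply Li_mono
      push_cast
      linarith
    linarith
  | succ M ih =>
    obtain ⟨t, ht⟩ : ∃ t : ℝ, t = β * ((M + 1 : ℕ) : ℝ) + h := ⟨_, rfl⟩
    have ht' : β * ((M + 1 + 1 : ℕ) : ℝ) + h = t + β := by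
      rw [ht]
      push_cast
      ring
    rw [← ht] at ih
    rw [ht', rsum_succ]
    obtain ⟨z, hz⟩ : ∃ z : ℤ, z = ⌊β * ((M + 1 : ℕ) : ℝ)⌋ + h := ⟨_, rfl⟩
    have hz1 : (z : ℝ) ≤ t := by
      rw [hz, ht]
      push_cast
      linarith [Int.floor_le (β * ((M : ℝ) + 1))]
    have hz2 : t - 1 < z := by
      rw [hz, ht]
      push_cast
      linarith [Int.sub_one_lt_floor (β * ((M : ℝ) + 1))]
    rw [← hz]
    by_cases h3 : 3 ≤ z
    · have h4 : (3 : ℝ) ≤ z := by exact_mod_cast h3
      have h5 := (Li_sub t (t + β) (by linarith) (by linarith)).2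
      have h6 : 1 / Real.log t ≤ rz z := by
        unfold rz
        rw [if_pos h3]
        exact one_div_le_one_div_of_le (Real.log_pos (by linarith)) (Real.log_le_log (by linarith) hz1)
      have h7 : 1 / β * (Li (t + β) - Li t) ≤ 1 / Real.log t := by
        calc 1 / β * (Li (t + β) - Li t) ≤ 1 / β * ((t + β - t) / Real.log t) :=
              mul_le_mul_of_nonneg_left h5 hb
          _ = _ := by
              rw [show t + β - t = β by ring]
              field_simp
      have e : 1 / β * (Li (t + β) - Li (3 + β + |(h : ℝ)|)) =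
        1 / β * (Li t - Li (3 + β + |(h : ℝ)|)) + 1 / β * (Li (t + β) - Li t) := by ring
      rw [e]
      linarith
    · have h4 : z ≤ 2 := by omega
      have h5 : (z : ℝ) ≤ 2 := by exact_mod_cast h4
      have h6 : Li (t + β) ≤ Li (3 + β + |(h : ℝ)|) := Li_mono (by linarith)
      have h7 : 1 / β * (Li (t + β) - Li (3 + β + |(h : ℝ)|)) ≤ 0 :=
        mul_nonpos_of_nonneg_of_nonpos hb (by linarith)
      have h8 := rsum_nonneg β h M
      have h9 := rz_nonneg z
      linarith

/-- **the main term** -/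
theorem rsum_main (β : ℝ) (hβ : 0 < β) (h : ℤ) (M : ℕ) (y : ℝ)
    (h1 : 1 ≤ M → ((⌊β * M⌋ + h : ℤ) : ℝ) ≤ y) (h2 : y < β * ((M + 1 : ℕ) : ℝ) + h) :
    |rsum β h M - Li y / β| ≤ 2 + (2 + 2 * |(h : ℝ)|) / β := by
  have hb : 0 < 1 / β := by positivity
  have ha := le_abs_self (h : ℝ)
  have hp := abs_nonneg (h : ℝ)
  have hu := rsum_up β hβ h M
  have hl := rsum_low β hβ h M
  have hly := Li_nonneg y
  have e1 : Li y / β = 1 / β * Li y := by ring
  have hpos : 0 ≤ (2 + 2 * |(h : ℝ)|) / β := by positivity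
  rw [abs_le]
  constructor
  · have h3 : Li y ≤ Li (β * ((M + 1 : ℕ) : ℝ) + h) := Li_mono h2.le
    have h4 : Li (3 + β + |(h : ℝ)|) ≤ 2 * (1 + β + |(h : ℝ)|) := by
      refine (Li_le _ (by linarith)).trans (le_of_eq ?_)
      ring
    have h5 : 1 / β * (Li y - 2 * (1 + β + |(h : ℝ)|)) ≤ rsum β h M := by
      refine le_trans ?_ hl
      exact mul_le_mul_of_nonneg_left (by linarith) hb.le
    have e2 : 1 / β * (Li y - 2 * (1 + β + |(h : ℝ)|)) = Li y / β - (2 + (2 + 2 * |(h : ℝ)|) / β) := by
      field_simp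
      ring
    rw [e2] at h5
    linarith
  · rcases Nat.eq_zero_or_pos M with h0 | h0
    · have e : rsum β h M = 0 := by rw [h0]; unfold rsum; simp
      rw [e]
      have : 0 ≤ Li y / β := by positivity
      linarith
    · have h3 := h1 h0
      have h4 : β * M + h - 1 < ((⌊β * M⌋ + h : ℤ) : ℝ) := by
        push_cast
        linarith [Int.sub_one_lt_floor (β * (M : ℝ))]
      have h5 : Li (β * M + h - 1) ≤ Li y := Li_mono (by linarith)
      have h6 := mul_le_mul_of_nonneg_left h5 hb.le
      rw [e1]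
      linarith [hu.2]

end Pool.Agent.U996.EH
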