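import Pool.Agent.U996.EH.SumU
import Pool.Agent.U996.EH.MainT

/-!
# Real moduli: almost every dilation
-/

set_option autoImplicit false

namespace Pool.Agent.U996.EH

open Finset MeasureTheory Filter Topology
open scoped ENNReal
open Pool.Agent.Y957.VK
open Pool.Agent.U996.UW

theorem fp1 (n : ℕ) : ‖(fun n => pI n - pR n) n‖ ≤ 1 := fp_le n

theorem sh_diff (h : ℤ) (t : ℝ) (ht : 0 ≤ t) :
    sh (fun n => pI n - pR n) h t = ((pz (⌊t⌋ + h) - rz (⌊t⌋ + h) : ℝ) : ℂ) := by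
  have e : sh (fun n => pI n - pR n) h t = sh pI h t - sh pR h t := rfl
  rw [e, sh_pI h t ht, sh_pR h t ht]
  push_cast
  rfl

/-- almost every positive dilation, dyadic ranges -/
theorem dyad_ae (w : ℕ → ℕ → ℝ) (hw : ∀ d n, |w d n| ≤ 1) :
    ∀ᵐ a : ℝ, 0 < a → ∀ (h : ℤ) (r T K κ : ℕ), 2 ≤ κ → ∀ᶠ i : ℕ in atTop, ∀ M : ℕ → ℕ,
      (∀ d ∈ mods (2 ^ i) r, M d * d ≤ κ * 2 ^ i) →
      ∑ d ∈ mods (2 ^ i) r, (d.divisors.card : ℝ) ^ T *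
        |∑ n ∈ Icc 1 (M d), w d n * (pz (⌊a * d * n⌋ + h) - rz (⌊a * d * n⌋ + h))| ≤
        ((2 ^ i : ℕ) : ℝ) / Real.log ((2 ^ i : ℕ) : ℝ) ^ K := by
  have h1 : ∀ᵐ a : ℝ, 0 < a → 0 < a ∧ ∀ (h : ℤ) (r T K κ : ℕ), 2 ≤ κ → ∀ᶠ i : ℕ in atTop, ∀ M : ℕ → ℕ,
      (∀ d ∈ mods (2 ^ i) r, M d * d ≤ κ * 2 ^ i) →
      ∑ d ∈ mods (2 ^ i) r, (d.divisors.card : ℝ) ^ T *
        ‖∑ n ∈ Icc 1 (M d), (w d n : ℂ) * sh (fun n => pI n - pR n) h (a * d * n)‖ ≤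
        ((2 ^ i : ℕ) : ℝ) / Real.log ((2 ^ i : ℕ) : ℝ) ^ K := by
    refine ae_cubes1 (fun a => 0 < a ∧ ∀ (h : ℤ) (r T K κ : ℕ), 2 ≤ κ → ∀ᶠ i : ℕ in atTop, ∀ M : ℕ → ℕ,
      (∀ d ∈ mods (2 ^ i) r, M d * d ≤ κ * 2 ^ i) →
      ∑ d ∈ mods (2 ^ i) r, (d.divisors.card : ℝ) ^ T *
        ‖∑ n ∈ Icc 1 (M d), (w d n : ℂ) * sh (fun n => pI n - pR n) h (a * d * n)‖ ≤
        ((2 ^ i : ℕ) : ℝ) / Real.log ((2 ^ i : ℕ) : ℝ) ^ K) fun b => ?_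
    have h2 : ∀ (h : ℤ) (r T K κ : ℕ), ∀ᵐ u ∂((volume : Measure ℝ).restrict (Set.Icc (0 : ℝ) 1)),
        2 ≤ κ → ∀ᶠ i : ℕ in atTop, ∀ M : ℕ → ℕ,
        (∀ d ∈ mods (2 ^ i) r, M d * d ≤ κ * 2 ^ i) →
        ∑ d ∈ mods (2 ^ i) r, (d.divisors.card : ℝ) ^ T *
          ‖∑ n ∈ Icc 1 (M d), (w d n : ℂ) * sh (fun n => pI n - pR n) h (Real.exp (b + u) * d * n)‖ ≤
          ((2 ^ i : ℕ) : ℝ) / Real.log ((2 ^ i : ℕ) : ℝ) ^ K := by
      intro h r T K κ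
      by_cases hκ : 2 ≤ κ
      · have h3 := ae_u (sh (fun n => pI n - pR n) h) (sh_le fp1 h) (sh_meas _ h) (sh_var fp1 h)
          (sh_neg fp1 neg_fp h) (b : ℝ) κ r T K hκ (fun d n => (w d n : ℂ)) (fun d n => by
            rw [Complex.norm_real]
            exact hw d n)
        filter_upwards [h3] with u hu _
        exact hu
      · exact ae_of_all _ fun u hk => absurd hk hκ
    have h4 : ∀ᵐ u ∂((volume : Measure ℝ).restrict (Set.Icc (0 : ℝ) 1)), ∀ (h : ℤ) (r T K κ : ℕ),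
        2 ≤ κ → ∀ᶠ i : ℕ in atTop, ∀ M : ℕ → ℕ,
        (∀ d ∈ mods (2 ^ i) r, M d * d ≤ κ * 2 ^ i) →
        ∑ d ∈ mods (2 ^ i) r, (d.divisors.card : ℝ) ^ T *
          ‖∑ n ∈ Icc 1 (M d), (w d n : ℂ) * sh (fun n => pI n - pR n) h (Real.exp (b + u) * d * n)‖ ≤
          ((2 ^ i : ℕ) : ℝ) / Real.log ((2 ^ i : ℕ) : ℝ) ^ K := by
      simp only [ae_all_iff]
      intro h r T K κ hk
      have h5 := h2 h r T K κ
      filter_upwards [h5] with u hu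
      exact hu hk
    filter_upwards [h4] with u hu
    exact ⟨Real.exp_pos _, hu⟩
  filter_upwards [h1] with a ha ha0 h r T K κ hκ
  filter_upwards [(ha ha0).2 h r T K κ hκ] with i hi M hM
  refine le_trans (le_of_eq ?_) (hi M hM)
  refine Finset.sum_congr rfl fun d _ => ?_
  congr 1
  have e : ∑ n ∈ Icc 1 (M d), (w d n : ℂ) * sh (fun n => pI n - pR n) h (a * d * n) =
      ((∑ n ∈ Icc 1 (M d), w d n * (pz (⌊a * d * n⌋ + h) - rz (⌊a * d * n⌋ + h)) : ℝ) : ℂ) := by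
    push_cast
    refine Finset.sum_congr rfl fun n _ => ?_
    rw [sh_diff h _ (by positivity)]
    push_cast
    rfl
  rw [e, Complex.norm_real, Real.norm_eq_abs]

/-- the moduli `d ≤ N ^ θ` -/
noncomputable def upto (N : ℕ) (θ : ℝ) : Finset ℕ := (Icc 1 N).filter fun d => (d : ℝ) ≤ (N : ℝ) ^ θ

/-- from the dyadic ranges to all ranges -/
theorem all_of_dyad (F : ℕ → ℕ → ℝ) (hF0 : ∀ d M, 0 ≤ F d M) (T : ℕ)
    (hd : ∀ (r K κ : ℕ), 2 ≤ κ → ∀ᶠ i : ℕ in atTop, ∀ M : ℕ → ℕ,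
      (∀ d ∈ mods (2 ^ i) r, M d * d ≤ κ * 2 ^ i) →
      ∑ d ∈ mods (2 ^ i) r, (d.divisors.card : ℝ) ^ T * F d (M d) ≤
        ((2 ^ i : ℕ) : ℝ) / Real.log ((2 ^ i : ℕ) : ℝ) ^ K)
    (θ : ℝ) (hθ : θ < 1) (K κ : ℕ) (hκ : 2 ≤ κ) : ∀ᶠ N : ℕ in atTop, ∀ M : ℕ → ℕ,
      (∀ d ∈ upto N θ, M d * d ≤ κ * N) →
      ∑ d ∈ upto N θ, (d.divisors.card : ℝ) ^ T * F d (M d) ≤ N / Real.log N ^ K := by
  obtain ⟨r, hr⟩ : ∃ r : ℕ, 1 / (1 - θ) ≤ r := exists_nat_ge _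
  have h1θ : 0 < 1 - θ := by linarith
  have hrθ : θ * ((r : ℝ) + 1) ≤ r := by
    have h1 : 1 ≤ r * (1 - θ) := by rwa [div_le_iff₀ h1θ] at hr
    linarith
  obtain ⟨i0, hi0⟩ := (hd r (K + 1) κ hκ).exists_forall_of_atTop
  filter_upwards [eventually_ge_atTop (2 ^ i0), eventually_ge_atTop 2,
    nlog.eventually_ge_atTop 2] with N hN hN2 hlog M hM
  obtain ⟨i, hi⟩ : ∃ i : ℕ, i = Nat.log 2 N + 1 := ⟨_, rfl⟩
  have hN2r : (2 : ℝ) ≤ N := by exact_mod_cast hN2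
  have hN0 : (0 : ℝ) < N := by linarith
  have hlt : N < 2 ^ i := by
    rw [hi]
    exact Nat.lt_pow_succ_log_self (by norm_num) N
  have hle : 2 ^ i ≤ 2 * N := by
    rw [hi, pow_succ, mul_comm]
    exact Nat.mul_le_mul_left 2 (Nat.pow_log_le_self 2 (by omega))
  have hii : i0 ≤ i := by
    have h1 : 2 ^ i0 < 2 ^ i := lt_of_le_of_lt hN hlt
    exact ((Nat.pow_lt_pow_iff_right (by norm_num)).1 h1).le
  have hsub : upto N θ ⊆ mods (2 ^ i) r := by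
    intro d hd
    unfold upto at hd
    rw [mem_filter, mem_Icc] at hd
    obtain ⟨⟨hd1, hdN⟩, hdθ⟩ := hd
    unfold mods
    rw [mem_filter, mem_Icc]
    refine ⟨⟨hd1, hdN.trans hlt.le⟩, ?_⟩
    have h1 : (d : ℝ) ^ (r + 1) ≤ (N : ℝ) ^ r := by
      calc (d : ℝ) ^ (r + 1) ≤ ((N : ℝ) ^ θ) ^ (r + 1) := pow_le_pow_left₀ (Nat.cast_nonneg _) hdθ _
        _ = (N : ℝ) ^ (θ * ((r : ℝ) + 1)) := by
            rw [← Real.rpow_natCast, ← Real.rpow_mul hN0.le]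
            push_cast
            rfl
        _ ≤ (N : ℝ) ^ (r : ℝ) := Real.rpow_le_rpow_of_exponent_le (by linarith) hrθ
        _ = _ := Real.rpow_natCast _ _
    have h2 : d ^ (r + 1) ≤ N ^ r := by exact_mod_cast h1
    exact h2.trans (Nat.pow_le_pow_left hlt.le r)
  have h1 := hi0 i hii (fun d => if d ∈ upto N θ then M d else 0) (fun d _ => by
    split_ifs with h
    · exact (hM d h).trans (Nat.mul_le_mul_left _ hlt.le)
    · simp)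
  have h2 : ∑ d ∈ upto N θ, (d.divisors.card : ℝ) ^ T * F d (M d) ≤
      ∑ d ∈ mods (2 ^ i) r, (d.divisors.card : ℝ) ^ T * F d (if d ∈ upto N θ then M d else 0) := by
    have h3 : ∑ d ∈ upto N θ, (d.divisors.card : ℝ) ^ T * F d (M d) =
        ∑ d ∈ upto N θ, (d.divisors.card : ℝ) ^ T * F d (if d ∈ upto N θ then M d else 0) :=
      Finset.sum_congr rfl fun d hd => by rw [if_pos hd]
    rw [h3]
    exact Finset.sum_le_sum_of_subset_of_nonneg hsub fun d _ _ => mul_nonneg (by positivity) (hF0 _ _)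
  refine h2.trans (h1.trans ?_)
  have h3 : Real.log N ≤ Real.log ((2 ^ i : ℕ) : ℝ) := Real.log_le_log hN0 (by exact_mod_cast hlt.le)
  have h4 : ((2 ^ i : ℕ) : ℝ) ≤ 2 * N := by exact_mod_cast hle
  have h5 : 0 < Real.log N := by linarith
  calc ((2 ^ i : ℕ) : ℝ) / Real.log ((2 ^ i : ℕ) : ℝ) ^ (K + 1) ≤ (2 * N) / Real.log N ^ (K + 1) :=
        div_le_div₀ (by positivity) h4 (by positivity) (pow_le_pow_left₀ h5.le h3 _)
    _ = (N / Real.log N ^ K) * (2 / Real.log N) := by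
        rw [pow_succ]
        field_simp
    _ ≤ (N / Real.log N ^ K) * 1 := by
        apply mul_le_mul_of_nonneg_left _ (by positivity)
        rw [div_le_one h5]
        exact hlog
    _ = _ := mul_one _

/-- the errors `O(τ(d) ^ T)` are negligible -/
theorem tau_small (T K : ℕ) (θ : ℝ) (hθ : θ < 1) (C : ℝ) (hC : 0 ≤ C) : ∀ᶠ N : ℕ in atTop,
    C * ∑ d ∈ upto N θ, (d.divisors.card : ℝ) ^ T ≤ N / Real.log N ^ K := by
  obtain ⟨δ, hδ⟩ : ∃ δ : ℝ, δ = (1 - θ) / 2 := ⟨_, rfl⟩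
  have hδ0 : 0 < δ := by rw [hδ]; linarith
  obtain ⟨P, hP⟩ : ∃ P : ℕ, P = 2 ^ T + K := ⟨_, rfl⟩
  obtain ⟨D, hD⟩ : ∃ D : ℝ, D = C * 2 ^ (2 ^ T) * (P.factorial / δ ^ P) := ⟨_, rfl⟩
  have hev : ∀ᶠ N : ℕ in atTop, D ≤ (N : ℝ) ^ δ :=
    ((tendsto_rpow_atTop hδ0).comp tendsto_natCast_atTop_atTop).eventually_ge_atTop D
  filter_upwards [hev, eventually_ge_atTop 2, nlog.eventually_ge_atTop 1] with N h1 h2 h3
  have hN2r : (2 : ℝ) ≤ N := by exact_mod_cast h2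
  have hN0 : (0 : ℝ) < N := by linarith
  have hl : 0 < Real.log N := by linarith
  rw [le_div_iff₀ (by positivity)]
  have h4 : ∑ d ∈ upto N θ, (d.divisors.card : ℝ) ^ T ≤ (N : ℝ) ^ θ * (2 * Real.log N) ^ (2 ^ T) := by
    have h5 : ∑ d ∈ upto N θ, (d.divisors.card : ℝ) ^ T ≤
        ∑ d ∈ upto N θ, (N : ℝ) ^ θ * ((d.divisors.card : ℝ) ^ T / d) := by
      refine Finset.sum_le_sum fun d hd => ?_
      unfold upto at hd
      rw [mem_filter, mem_Icc] at hd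
      have hd0 : (0 : ℝ) < d := by exact_mod_cast hd.1.1
      rw [mul_div_assoc', le_div_iff₀ hd0, mul_comm]
      exact mul_le_mul_of_nonneg_right hd.2 (by positivity)
    refine h5.trans ?_
    rw [← Finset.mul_sum]
    apply mul_le_mul_of_nonneg_left _ (by positivity)
    have h6 := Pool.Agent.TH935.LD.tau_pow_div T N
    have h7 : ∑ d ∈ upto N θ, (d.divisors.card : ℝ) ^ T / d ≤
        ∑ d ∈ Icc 1 N, (d.divisors.card : ℝ) ^ T / d :=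
      Finset.sum_le_sum_of_subset_of_nonneg (Finset.filter_subset _ _) fun d _ _ => by positivity
    refine h7.trans (h6.trans ?_)
    exact pow_le_pow_left₀ (by positivity) (by linarith) _
  have h8 := log_pow_le_rpow P (δ := δ) hδ0 (show (1 : ℝ) ≤ N by linarith)
  have e1 : (N : ℝ) ^ θ * (N : ℝ) ^ δ * (N : ℝ) ^ δ = N := by
    rw [← Real.rpow_add hN0, ← Real.rpow_add hN0, show θ + δ + δ = 1 by rw [hδ]; ring, Real.rpow_one]
  calc C * (∑ d ∈ upto N θ, (d.divisors.card : ℝ) ^ T) * Real.log N ^ K ≤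
        C * ((N : ℝ) ^ θ * (2 * Real.log N) ^ (2 ^ T)) * Real.log N ^ K :=
        mul_le_mul_of_nonneg_right (mul_le_mul_of_nonneg_left h4 hC) (by positivity)
    _ = C * 2 ^ (2 ^ T) * (N : ℝ) ^ θ * Real.log N ^ P := by
        rw [hP, mul_pow, pow_add]
        ring
    _ ≤ C * 2 ^ (2 ^ T) * (N : ℝ) ^ θ * (P.factorial / δ ^ P * (N : ℝ) ^ δ) :=
        mul_le_mul_of_nonneg_left h8 (by positivity)
    _ = (N : ℝ) ^ θ * (N : ℝ) ^ δ * D := by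
        rw [hD]
        ring
    _ ≤ (N : ℝ) ^ θ * (N : ℝ) ^ δ * (N : ℝ) ^ δ :=
        mul_le_mul_of_nonneg_left h1 (by positivity)
    _ = N := e1

/-- the number of terms up to `y` -/
noncomputable def len (β : ℝ) (h : ℤ) (y : ℝ) : ℕ := ⌈((⌊y⌋ - h + 1 : ℤ) : ℝ) / β⌉₊ - 1

theorem len_iff (β : ℝ) (hβ : 0 < β) (h : ℤ) (y : ℝ) (m : ℕ) (hm : 1 ≤ m) :
    m ≤ len β h y ↔ ((⌊β * m⌋ + h : ℤ) : ℝ) ≤ y := by
  have h1 : m ≤ len β h y ↔ m < ⌈((⌊y⌋ - h + 1 : ℤ) : ℝ) / β⌉₊ := by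
    unfold len
    omega
  rw [h1, Nat.lt_ceil, lt_div_iff₀ hβ]
  have h2 : (((⌊β * m⌋ + h : ℤ) : ℝ) ≤ y) ↔ ⌊β * m⌋ + h ≤ ⌊y⌋ := Int.le_floor.symm
  have h3 : (⌊β * m⌋ + h ≤ ⌊y⌋) ↔ ⌊β * m⌋ < ⌊y⌋ - h + 1 := by omega
  rw [h2, h3, Int.floor_lt, mul_comm]

theorem len_le (β : ℝ) (hβ : 0 < β) (h : ℤ) (y : ℝ) (hy : 0 ≤ y) :
    (len β h y : ℝ) * β ≤ y + |(h : ℝ)| + 1 := by
  have hp := abs_nonneg (h : ℝ)
  have ha := neg_abs_le (h : ℝ)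
  rcases Nat.eq_zero_or_pos (len β h y) with h0 | h0
  · rw [h0]
    push_cast
    linarith
  · have h1 := (len_iff β hβ h y _ h0).1 le_rfl
    have h2 := Int.sub_one_lt_floor (β * (len β h y : ℝ))
    push_cast at h1
    linarith

/-- the count and the sum of the densities -/
theorem main_y (β : ℝ) (hβ : 0 < β) (h : ℤ) (y : ℝ) :
    |rsum β h (len β h y) - Li y / β| ≤ 2 + (2 + 2 * |(h : ℝ)|) / β := by
  refine rsum_main β hβ h _ y (fun h1 => (len_iff β hβ h y _ h1).1 le_rfl) ?_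
  have h1 : ¬ (len β h y + 1 ≤ len β h y) := by omega
  rw [len_iff β hβ h y _ (by omega), not_le] at h1
  have h2 := Int.floor_le (β * ((len β h y + 1 : ℕ) : ℝ))
  refine lt_of_lt_of_le h1 ?_
  push_cast at h2 ⊢
  linarith

end Pool.Agent.U996.EH
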