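import Pool.Agent.U996.EH.BlockU

/-!
# Arbitrary weights, the full sum, uniform in a large dilation
-/

set_option autoImplicit false

namespace Pool.Agent.U996.EH

open Finset MeasureTheory Filter Topology
open scoped ENNReal
open Pool.Agent.Y957.AD (PolyVar)
open Pool.Agent.Y957.VK
open Pool.Agent.U996.UW

theorem full_u (A : ℝ → ℂ) (hA1 : ∀ x, ‖A x‖ ≤ 1) (hAm : Measurable A) (hAv : PolyVar A) (hAw : WNeg A)
    (c : ℝ) (hc : 0 < c) (K B : ℕ) : ∃ C : ℝ, 0 ≤ C ∧ ∀ M0 : ℕ, 2 ≤ M0 →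
      ∀ b : ℝ, -(B : ℝ) ≤ b → b ≤ B * (1 + Real.log M0) → ∀ w : ℕ → ℂ, (∀ n, ‖w n‖ ≤ 1) →
        ∫⁻ u in Set.Icc (0 : ℝ) 1, ‖∑ n ∈ Icc 1 M0, w n * A (Real.exp (b + u) * (n : ℝ) ^ c)‖ₑ ^ 2 ≤
          ENNReal.ofReal (C * (M0 ^ 2 / Real.log M0 ^ K)) := by
  obtain ⟨Cb, hCb, hblk⟩ := block_u A hA1 hAm hAv hAw c hc K (4 * B)
  obtain ⟨C', hC'⟩ : ∃ C' : ℝ, C' = Cb * 4 ^ K := ⟨_, rfl⟩
  have hC'0 : 0 ≤ C' := by rw [hC']; positivity
  refine ⟨2 * C' + 4 * (K.factorial / (1 / 2) ^ K) + 81 ^ K, by positivity, ?_⟩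
  intro M0 hM0 b hb1 hb2 w hw
  have hM0r : (2 : ℝ) ≤ M0 := by exact_mod_cast hM0
  have hMp : (0 : ℝ) < M0 := by linarith
  obtain ⟨ℓ, hℓ⟩ : ∃ ℓ : ℝ, ℓ = Real.log M0 := ⟨_, rfl⟩
  have hℓ0 : 0 < ℓ := by rw [hℓ]; exact Real.log_pos (by linarith)
  have hℓK : 0 < ℓ ^ K := by positivity
  rw [← hℓ] at hb2 ⊢
  have hB0 : (0 : ℝ) ≤ B := Nat.cast_nonneg B
  rcases lt_or_ge M0 81 with hs | hs
  · have h1 := triv_sum A hA1 (Icc 1 M0) w hw fun u n => Real.exp (b + u) * (n : ℝ) ^ c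
    refine h1.trans (ENNReal.ofReal_le_ofReal ?_)
    rw [Nat.card_Icc, Nat.add_sub_cancel, mul_div_assoc', le_div_iff₀ hℓK]
    have h2 : ℓ ≤ 81 := by
      rw [hℓ]
      refine (Real.log_le_self (by linarith)).trans ?_
      exact_mod_cast hs.le
    have h3 : ℓ ^ K ≤ 81 ^ K := pow_le_pow_left₀ hℓ0.le h2 K
    have h4 : (M0 : ℝ) ^ 2 * ℓ ^ K ≤ (M0 : ℝ) ^ 2 * 81 ^ K :=
      mul_le_mul_of_nonneg_left h3 (by positivity)
    have h5 : 0 ≤ (2 * C' + 4 * (K.factorial / (1 / 2) ^ K)) * (M0 : ℝ) ^ 2 := by positivity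
    refine h4.trans ?_
    rw [show (2 * C' + 4 * (K.factorial / (1 / 2) ^ K) + 81 ^ K) * (M0 : ℝ) ^ 2 =
      (2 * C' + 4 * (K.factorial / (1 / 2) ^ K)) * (M0 : ℝ) ^ 2 + (M0 : ℝ) ^ 2 * 81 ^ K by ring]
    exact le_add_of_nonneg_left h5
  have h81 : (81 : ℝ) ≤ M0 := by exact_mod_cast hs
  obtain ⟨s, hsdef⟩ : ∃ s : ℝ, s = Real.sqrt M0 := ⟨_, rfl⟩
  have hs9 : 9 ≤ s := by
    rw [hsdef]
    refine Real.le_sqrt_of_sq_le ?_
    norm_num
    linarith
  have hss : s * s = M0 := by rw [hsdef]; exact Real.mul_self_sqrt hMp.le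
  have hlogs : Real.log s = ℓ / 2 := by
    rw [hsdef, Real.log_sqrt hMp.le, hℓ]
  have hℓ4 : 4 * Real.log 2 ≤ ℓ := by
    rw [hℓ, show 4 * Real.log 2 = Real.log (2 ^ 4) by rw [Real.log_pow]; push_cast; ring]
    exact Real.log_le_log (by norm_num) (by norm_num; linarith)
  have key : ∀ M : ℕ, 2 ≤ M → M ≤ M0 →
      ∫⁻ u in Set.Icc (0 : ℝ) 1, ‖∑ n ∈ Icc 1 M, w n * A (Real.exp (b + u) * (n : ℝ) ^ c)‖ₑ ^ 2 ≤
        ENNReal.ofReal (2 * C' * (M ^ 2 / ℓ ^ K) + 4 * (M - 1) * s) := by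
    intro M
    induction M using Nat.strong_induction_on with
    | _ M ih =>
      intro hM2 hMM
      have hM2r : (2 : ℝ) ≤ M := by exact_mod_cast hM2
      rcases le_or_gt (M : ℝ) s with hMs | hMs
      · have h1 := triv_sum A hA1 (Icc 1 M) w hw fun u n => Real.exp (b + u) * (n : ℝ) ^ c
        refine h1.trans (ENNReal.ofReal_le_ofReal ?_)
        rw [Nat.card_Icc, Nat.add_sub_cancel]
        have h2 : 0 ≤ 2 * C' * ((M : ℝ) ^ 2 / ℓ ^ K) := by positivity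
        have h3 : (M : ℝ) ^ 2 ≤ 4 * (M - 1) * s := by
          calc (M : ℝ) ^ 2 = M * M := by ring
            _ ≤ (4 * (M - 1)) * s := mul_le_mul (by linarith) hMs (by linarith) (by linarith)
        linarith
      · obtain ⟨M1, hM1⟩ : ∃ M1 : ℕ, M1 = (M + 1) / 2 := ⟨_, rfl⟩
        have hM9 : (9 : ℝ) ≤ M := by linarith
        have hM9' : 9 ≤ M := by exact_mod_cast hM9
        have g1 : M ≤ 2 * M1 := by omega
        have g2 : 2 * M1 ≤ M + 1 := by omega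
        have g3 : 2 ≤ M1 := by omega
        have g4 : M1 < M := by omega
        have g1r : (M : ℝ) ≤ 2 * M1 := by exact_mod_cast g1
        have g2r : 2 * (M1 : ℝ) ≤ M + 1 := by exact_mod_cast g2
        have hM1p : (0 : ℝ) < M1 := by linarith
        have hl1 : ℓ / 4 ≤ Real.log M1 := by
          have h1 : Real.log (s / 2) ≤ Real.log M1 := Real.log_le_log (by linarith) (by linarith)
          rw [Real.log_div (by linarith) (by norm_num), hlogs] at h1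
          linarith
        have hb3 : b ≤ ((4 * B : ℕ) : ℝ) * (1 + Real.log M1) := by
          push_cast
          have h1 : (B : ℝ) * (1 + ℓ) ≤ B * (4 * (1 + Real.log M1)) :=
            mul_le_mul_of_nonneg_left (by linarith) hB0
          linarith
        have hb4 : -((4 * B : ℕ) : ℝ) ≤ b := by
          push_cast
          linarith
        have h1 := ih M1 g4 g3 (g4.le.trans hMM)
        have h2 := hblk M1 M g3 g4.le g1 b hb4 hb3 w hw
        have e1 : ∀ u : ℝ, ∑ n ∈ Icc 1 M, w n * A (Real.exp (b + u) * (n : ℝ) ^ c) =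
            ∑ n ∈ Icc 1 M1, w n * A (Real.exp (b + u) * (n : ℝ) ^ c) +
            ∑ n ∈ Ioc M1 M, w n * A (Real.exp (b + u) * (n : ℝ) ^ c) := by
          intro u
          have e2 : Icc 1 M = Ioc 0 M := rfl
          have e3 : Icc 1 M1 = Ioc 0 M1 := rfl
          rw [e2, e3]
          exact (Finset.sum_Ioc_consecutive _ (Nat.zero_le _) g4.le).symm
        have hm1 : Measurable fun u : ℝ =>
            2 * ‖∑ n ∈ Icc 1 M1, w n * A (Real.exp (b + u) * (n : ℝ) ^ c)‖ₑ ^ 2 := by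
          refine Measurable.const_mul (Measurable.pow_const (Measurable.enorm ?_) 2) 2
          refine Finset.measurable_fun_sum _ fun n _ => measurable_const.mul (hAm.comp ?_)
          exact (Real.measurable_exp.comp (measurable_const.add measurable_id)).mul measurable_const
        have h3 : Cb * (M1 : ℝ) ^ 2 / Real.log M1 ^ K ≤ C' * (M1 ^ 2 / ℓ ^ K) := by
          have h4 : (ℓ / 4) ^ K ≤ Real.log M1 ^ K := pow_le_pow_left₀ (by positivity) hl1 K
          calc Cb * (M1 : ℝ) ^ 2 / Real.log M1 ^ K ≤ Cb * (M1 : ℝ) ^ 2 / (ℓ / 4) ^ K :=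
                div_le_div_of_nonneg_left (by positivity) (by positivity) h4
            _ = _ := by
                rw [hC', div_pow]
                field_simp
        have hMsq : (M1 : ℝ) ^ 2 ≤ 25 / 81 * (M : ℝ) ^ 2 := by
          have h4 : (M1 : ℝ) ≤ 5 / 9 * M := by linarith
          calc (M1 : ℝ) ^ 2 ≤ (5 / 9 * M) ^ 2 := pow_le_pow_left₀ hM1p.le h4 2
            _ = _ := by ring
        calc ∫⁻ u in Set.Icc (0 : ℝ) 1,
              ‖∑ n ∈ Icc 1 M, w n * A (Real.exp (b + u) * (n : ℝ) ^ c)‖ₑ ^ 2 ≤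
              ∫⁻ u in Set.Icc (0 : ℝ) 1,
                (2 * ‖∑ n ∈ Icc 1 M1, w n * A (Real.exp (b + u) * (n : ℝ) ^ c)‖ₑ ^ 2 +
                  2 * ‖∑ n ∈ Ioc M1 M, w n * A (Real.exp (b + u) * (n : ℝ) ^ c)‖ₑ ^ 2) := by
              refine lintegral_mono fun u => ?_
              show ‖∑ n ∈ Icc 1 M, w n * A (Real.exp (b + u) * (n : ℝ) ^ c)‖ₑ ^ 2 ≤ _
              rw [e1]
              exact enorm_add_sq _ _
          _ = 2 * (∫⁻ u in Set.Icc (0 : ℝ) 1,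
                ‖∑ n ∈ Icc 1 M1, w n * A (Real.exp (b + u) * (n : ℝ) ^ c)‖ₑ ^ 2) +
              2 * ∫⁻ u in Set.Icc (0 : ℝ) 1,
                ‖∑ n ∈ Ioc M1 M, w n * A (Real.exp (b + u) * (n : ℝ) ^ c)‖ₑ ^ 2 := by
              rw [lintegral_add_left hm1, lintegral_const_mul' _ _ (by norm_num),
                lintegral_const_mul' _ _ (by norm_num)]
          _ ≤ 2 * ENNReal.ofReal (2 * C' * (M1 ^ 2 / ℓ ^ K) + 4 * (M1 - 1) * s) +
              2 * ENNReal.ofReal (C' * (M1 ^ 2 / ℓ ^ K)) := by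
              gcongr
              exact h2.trans (ENNReal.ofReal_le_ofReal h3)
          _ = ENNReal.ofReal (2 * (2 * C' * (M1 ^ 2 / ℓ ^ K) + 4 * (M1 - 1) * s) +
              2 * (C' * (M1 ^ 2 / ℓ ^ K))) := by
              have h2a : ∀ a : ℝ, 2 * ENNReal.ofReal a = ENNReal.ofReal (2 * a) := fun a => by
                rw [ENNReal.ofReal_mul (by norm_num), ENNReal.ofReal_ofNat]
              have hM1' : (1 : ℝ) ≤ M1 := by linarith
              have : 0 ≤ 4 * ((M1 : ℝ) - 1) * s := by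
                have : 0 ≤ (M1 : ℝ) - 1 := by linarith
                positivity
              rw [h2a, h2a, ← ENNReal.ofReal_add (by positivity) (by positivity)]
          _ ≤ _ := by
              apply ENNReal.ofReal_le_ofReal
              have h5 : (M1 : ℝ) ^ 2 / ℓ ^ K ≤ 25 / 81 * ((M : ℝ) ^ 2 / ℓ ^ K) := by
                rw [mul_div_assoc']
                exact div_le_div_of_nonneg_right hMsq hℓK.le
              have h6 : 6 * C' * ((M1 : ℝ) ^ 2 / ℓ ^ K) ≤ 6 * C' * (25 / 81 * ((M : ℝ) ^ 2 / ℓ ^ K)) :=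
                mul_le_mul_of_nonneg_left h5 (by positivity)
              have h7 : 0 ≤ C' * ((M : ℝ) ^ 2 / ℓ ^ K) := by positivity
              have h8 : (2 * ((M1 : ℝ) - 1)) * s ≤ (M - 1) * s :=
                mul_le_mul_of_nonneg_right (by linarith) (by linarith)
              linarith
  refine (key M0 hM0 le_rfl).trans (ENNReal.ofReal_le_ofReal ?_)
  have h1 := log_pow_le_rpow K (δ := 1 / 2) (by norm_num) (show (1 : ℝ) ≤ M0 by linarith)
  rw [← Real.sqrt_eq_rpow, ← hsdef, ← hℓ] at h1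
  have h2 : (M0 : ℝ) * s ≤ K.factorial / (1 / 2) ^ K * ((M0 : ℝ) ^ 2 / ℓ ^ K) := by
    rw [mul_div_assoc', le_div_iff₀ hℓK]
    calc (M0 : ℝ) * s * ℓ ^ K ≤ (M0 : ℝ) * s * (K.factorial / (1 / 2) ^ K * s) :=
          mul_le_mul_of_nonneg_left h1 (by positivity)
      _ = K.factorial / (1 / 2) ^ K * (M0 * (s * s)) := by ring
      _ = _ := by rw [hss]; ring
  have h3 : 4 * ((M0 : ℝ) - 1) * s ≤ 4 * (M0 * s) := by nlinarith
  have h4 : 0 ≤ (81 : ℝ) ^ K * ((M0 : ℝ) ^ 2 / ℓ ^ K) := by positivity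
  calc 2 * C' * ((M0 : ℝ) ^ 2 / ℓ ^ K) + 4 * ((M0 : ℝ) - 1) * s ≤
        2 * C' * ((M0 : ℝ) ^ 2 / ℓ ^ K) + 4 * (K.factorial / (1 / 2) ^ K * ((M0 : ℝ) ^ 2 / ℓ ^ K)) := by
        linarith
    _ ≤ 2 * C' * ((M0 : ℝ) ^ 2 / ℓ ^ K) + 4 * (K.factorial / (1 / 2) ^ K * ((M0 : ℝ) ^ 2 / ℓ ^ K)) +
        (81 : ℝ) ^ K * ((M0 : ℝ) ^ 2 / ℓ ^ K) := by linarith
    _ = _ := by ring

end Pool.Agent.U996.EH
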