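import Pool.Agent.U996.EH.FullU

/-!
# The maximal function of the partial sums, uniform in a large dilation
-/

set_option autoImplicit false

namespace Pool.Agent.U996.EH

open Finset MeasureTheory Filter Topology
open scoped ENNReal
open Pool.Agent.Y957.AD (PolyVar)
open Pool.Agent.Y957.VK
open Pool.Agent.U996.UW

/-- `x ≤ lam x ^ 2 + 1 / lam` -/
theorem enn_sq (x : ℝ≥0∞) (lam : ℝ) (hl : 0 < lam) :
    x ≤ ENNReal.ofReal lam * x ^ 2 + ENNReal.ofReal (1 / lam) := by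
  rcases eq_or_ne x ⊤ with rfl | hx
  · have : ENNReal.ofReal lam * (⊤ : ℝ≥0∞) ^ 2 = ⊤ := by
      rw [ENNReal.top_pow (by norm_num), ENNReal.mul_top]
      exact (ENNReal.ofReal_pos.2 hl).ne'
    rw [this, top_add]
  · obtain ⟨y, hy, rfl⟩ : ∃ y : ℝ, 0 ≤ y ∧ x = ENNReal.ofReal y :=
      ⟨x.toReal, ENNReal.toReal_nonneg, (ENNReal.ofReal_toReal hx).symm⟩
    rw [← ENNReal.ofReal_pow hy, ← ENNReal.ofReal_mul hl.le,
      ← ENNReal.ofReal_add (by positivity) (by positivity)]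
    apply ENNReal.ofReal_le_ofReal
    have h1 : 0 ≤ (lam * y - 1) ^ 2 := sq_nonneg _
    have h2 : y * lam ≤ (lam * y ^ 2 + 1 / lam) * lam := by
      have e : (lam * y ^ 2 + 1 / lam) * lam = (lam * y) ^ 2 + 1 := by
        field_simp
      rw [e]
      nlinarith [mul_nonneg hl.le hy]
    exact le_of_mul_le_mul_right h2 hl

/-- the points of the grid -/
theorem grid_pt (M0 J M : ℕ) (hM0 : 0 < M0) (hJ : 0 < J) (hM : M ≤ M0) :
    ∃ j ∈ range (J + 1), j * M0 / J ≤ M ∧ (M : ℝ) - ((j * M0 / J : ℕ) : ℝ) ≤ M0 / J + 1 := by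
  refine ⟨M * J / M0, ?_, ?_, ?_⟩
  · rw [mem_range, Nat.lt_succ_iff]
    calc M * J / M0 ≤ M0 * J / M0 := Nat.div_le_div_right (Nat.mul_le_mul_right _ hM)
      _ = J := Nat.mul_div_cancel_left _ hM0
  · calc M * J / M0 * M0 / J ≤ M * J / J := Nat.div_le_div_right (Nat.div_mul_le_self _ _)
      _ = M := Nat.mul_div_cancel _ hJ
  · have hMr : (0 : ℝ) < M0 := by exact_mod_cast hM0
    have hJr : (0 : ℝ) < J := by exact_mod_cast hJ
    have h1 : M * J < (M * J / M0 + 1) * M0 := by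
      have h := Nat.lt_mul_div_succ (M * J) hM0
      rw [mul_comm (M * J / M0 + 1)]
      exact h
    have h2 : M * J / M0 * M0 < (M * J / M0 * M0 / J + 1) * J := by
      have h := Nat.lt_mul_div_succ (M * J / M0 * M0) hJ
      rw [mul_comm (M * J / M0 * M0 / J + 1)]
      exact h
    have h1r : (M : ℝ) * J < (((M * J / M0 : ℕ) : ℝ) + 1) * M0 := by exact_mod_cast h1
    have h2r : ((M * J / M0 : ℕ) : ℝ) * M0 < (((M * J / M0 * M0 / J : ℕ) : ℝ) + 1) * J := by
      exact_mod_cast h2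
    have h3 : (M : ℝ) * J ≤ ((M0 / J + 1) + ((M * J / M0 * M0 / J : ℕ) : ℝ)) * J := by
      have e : ((M0 / J + 1) + ((M * J / M0 * M0 / J : ℕ) : ℝ)) * J =
          M0 + (((M * J / M0 * M0 / J : ℕ) : ℝ) + 1) * J := by
        field_simp
        ring
      rw [e]
      nlinarith
    have h4 := le_of_mul_le_mul_right h3 hJr
    linarith

theorem max_u (A : ℝ → ℂ) (hA1 : ∀ x, ‖A x‖ ≤ 1) (hAm : Measurable A) (hAv : PolyVar A) (hAw : WNeg A)
    (c : ℝ) (hc : 0 < c) (K B : ℕ) : ∃ C : ℝ, 0 ≤ C ∧ ∀ M0 : ℕ, 2 ≤ M0 →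
      ∀ b : ℝ, -(B : ℝ) ≤ b → b ≤ B * (1 + Real.log M0) → ∀ w : ℕ → ℂ, (∀ n, ‖w n‖ ≤ 1) →
        ∃ G : ℝ → ℝ≥0∞, Measurable G ∧
          (∀ u, ∀ M ≤ M0, ‖∑ n ∈ Icc 1 M, w n * A (Real.exp (b + u) * (n : ℝ) ^ c)‖ₑ ≤ G u) ∧
          ∫⁻ u in Set.Icc (0 : ℝ) 1, G u ≤ ENNReal.ofReal (C * (M0 / Real.log M0 ^ K)) := by
  obtain ⟨C, hC, hfull⟩ := full_u A hA1 hAm hAv hAw c hc (4 * K) B
  have hl2 : (0 : ℝ) < Real.log 2 := Real.log_pos (by norm_num)
  refine ⟨(1 + 2 / Real.log 2 ^ K) * (C + 1) + 1 + K.factorial, by positivity, ?_⟩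
  intro M0 hM0 b hb1 hb2 w hw
  have hM0r : (2 : ℝ) ≤ M0 := by exact_mod_cast hM0
  have hMp : (0 : ℝ) < M0 := by linarith
  obtain ⟨ℓ, hℓ⟩ : ∃ ℓ : ℝ, ℓ = Real.log M0 := ⟨_, rfl⟩
  have hℓ2 : Real.log 2 ≤ ℓ := by rw [hℓ]; exact Real.log_le_log (by norm_num) hM0r
  have hℓ0 : 0 < ℓ := by linarith
  have hℓK : 0 < ℓ ^ K := by positivity
  obtain ⟨J, hJ⟩ : ∃ J : ℕ, J = ⌈ℓ ^ K⌉₊ := ⟨_, rfl⟩
  have hJ0 : 0 < J := by rw [hJ]; exact Nat.ceil_pos.2 hℓK
  have hJr : (0 : ℝ) < J := by exact_mod_cast hJ0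
  have hJ1 : ℓ ^ K ≤ J := by rw [hJ]; exact Nat.le_ceil _
  have hJ2 : (J : ℝ) ≤ ℓ ^ K + 1 := by rw [hJ]; exact (Nat.ceil_lt_add_one hℓK.le).le
  obtain ⟨S, hS⟩ : ∃ S : ℕ → ℝ → ℂ, S = fun M u =>
    ∑ n ∈ Icc 1 M, w n * A (Real.exp (b + u) * (n : ℝ) ^ c) := ⟨_, rfl⟩
  have hSm : ∀ M, Measurable (S M) := by
    intro M
    rw [hS]
    refine Finset.measurable_fun_sum _ fun n _ => measurable_const.mul (hAm.comp ?_)
    exact (Real.measurable_exp.comp (measurable_const.add measurable_id)).mul measurable_const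
  have hSI : ∀ M ≤ M0, ∫⁻ u in Set.Icc (0 : ℝ) 1, ‖S M u‖ₑ ^ 2 ≤
      ENNReal.ofReal (C * (M0 ^ 2 / ℓ ^ (4 * K))) := by
    intro M hM
    have h1 := hfull M0 hM0 b hb1 hb2 (fun n => if n ≤ M then w n else 0) (fun n => by
      show ‖if n ≤ M then w n else 0‖ ≤ 1
      split_ifs
      · exact hw n
      · simp)
    rw [← hℓ] at h1
    refine le_trans (le_of_eq ?_) h1
    refine lintegral_congr fun u => ?_
    congr 2
    rw [hS]
    show ∑ n ∈ Icc 1 M, w n * A (Real.exp (b + u) * (n : ℝ) ^ c) =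
      ∑ n ∈ Icc 1 M0, (if n ≤ M then w n else 0) * A (Real.exp (b + u) * (n : ℝ) ^ c)
    simp only [ite_mul, zero_mul]
    rw [← Finset.sum_filter]
    apply Finset.sum_congr _ fun _ _ => rfl
    ext n
    simp only [mem_Icc, mem_filter]
    omega
  refine ⟨fun u => (∑ j ∈ range (J + 1), ‖S (j * M0 / J) u‖ₑ) + ENNReal.ofReal (M0 / J + 1), ?_, ?_, ?_⟩
  · refine Measurable.add_const (Finset.measurable_fun_sum _ fun j _ => (hSm _).enorm) _
  · intro u M hM
    obtain ⟨j, hj, hj1, hj2⟩ := grid_pt M0 J M (by omega) hJ0 hM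
    have e1 : S M u = S (j * M0 / J) u +
        ∑ n ∈ Ioc (j * M0 / J) M, w n * A (Real.exp (b + u) * (n : ℝ) ^ c) := by
      rw [hS]
      have e2 : Icc 1 M = Ioc 0 M := rfl
      have e3 : Icc 1 (j * M0 / J) = Ioc 0 (j * M0 / J) := rfl
      show ∑ n ∈ Icc 1 M, _ = ∑ n ∈ Icc 1 (j * M0 / J), _ + _
      rw [e2, e3]
      exact (Finset.sum_Ioc_consecutive _ (Nat.zero_le _) hj1).symm
    have e4 : ∑ n ∈ Icc 1 M, w n * A (Real.exp (b + u) * (n : ℝ) ^ c) = S M u := by rw [hS]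
    rw [e4, e1]
    refine (enorm_add_le _ _).trans (add_le_add ?_ ?_)
    · exact Finset.single_le_sum (f := fun j => ‖S (j * M0 / J) u‖ₑ) (fun _ _ => bot_le) hj
    · rw [← ofReal_norm]
      apply ENNReal.ofReal_le_ofReal
      refine le_trans ?_ hj2
      refine (norm_sum_le _ _).trans ?_
      have h1 : ∑ n ∈ Ioc (j * M0 / J) M, ‖w n * A (Real.exp (b + u) * (n : ℝ) ^ c)‖ ≤
          ∑ _n ∈ Ioc (j * M0 / J) M, (1 : ℝ) := by
        refine Finset.sum_le_sum fun n _ => ?_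
        rw [norm_mul]
        exact mul_le_one₀ (hw n) (norm_nonneg _) (hA1 _)
      refine h1.trans (le_of_eq ?_)
      rw [Finset.sum_const, nsmul_eq_mul, mul_one, Nat.card_Ioc, Nat.cast_sub hj1]
  · rw [lintegral_add_right _ measurable_const, lintegral_const, Measure.restrict_apply_univ,
      Real.volume_Icc, sub_zero, ENNReal.ofReal_one, mul_one,
      lintegral_finsetSum _ fun j _ => (hSm _).enorm]
    obtain ⟨lam, hlam⟩ : ∃ lam : ℝ, lam = ℓ ^ (2 * K) / M0 := ⟨_, rfl⟩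
    have hlam0 : 0 < lam := by rw [hlam]; positivity
    have h1 : ∀ j ∈ range (J + 1), ∫⁻ u in Set.Icc (0 : ℝ) 1, ‖S (j * M0 / J) u‖ₑ ≤
        ENNReal.ofReal ((C + 1) * (M0 / ℓ ^ (2 * K))) := by
      intro j hj
      have hjM : j * M0 / J ≤ M0 := by
        rw [mem_range, Nat.lt_succ_iff] at hj
        calc j * M0 / J ≤ J * M0 / J := Nat.div_le_div_right (Nat.mul_le_mul_right _ hj)
          _ = M0 := Nat.mul_div_cancel_left _ hJ0
      calc ∫⁻ u in Set.Icc (0 : ℝ) 1, ‖S (j * M0 / J) u‖ₑ ≤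
            ∫⁻ u in Set.Icc (0 : ℝ) 1, (ENNReal.ofReal lam * ‖S (j * M0 / J) u‖ₑ ^ 2 +
              ENNReal.ofReal (1 / lam)) := lintegral_mono fun u => enn_sq _ lam hlam0
        _ = ENNReal.ofReal lam * (∫⁻ u in Set.Icc (0 : ℝ) 1, ‖S (j * M0 / J) u‖ₑ ^ 2) +
              ENNReal.ofReal (1 / lam) := by
            rw [lintegral_add_right _ measurable_const, lintegral_const, Measure.restrict_apply_univ,
              Real.volume_Icc, sub_zero, ENNReal.ofReal_one, mul_one,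
              lintegral_const_mul _ ((hSm _).enorm.pow_const 2)]
        _ ≤ ENNReal.ofReal lam * ENNReal.ofReal (C * (M0 ^ 2 / ℓ ^ (4 * K))) +
              ENNReal.ofReal (1 / lam) := by
            gcongr
            exact hSI _ hjM
        _ = ENNReal.ofReal (lam * (C * (M0 ^ 2 / ℓ ^ (4 * K))) + 1 / lam) := by
            rw [← ENNReal.ofReal_mul hlam0.le, ← ENNReal.ofReal_add (by positivity) (by positivity)]
        _ = _ := by
            congr 1
            rw [hlam, show 4 * K = 2 * K + 2 * K by ring, pow_add]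
            field_simp
    calc (∑ j ∈ range (J + 1), ∫⁻ u in Set.Icc (0 : ℝ) 1, ‖S (j * M0 / J) u‖ₑ) +
          ENNReal.ofReal (M0 / J + 1) ≤
          (∑ _j ∈ range (J + 1), ENNReal.ofReal ((C + 1) * (M0 / ℓ ^ (2 * K)))) +
          ENNReal.ofReal (M0 / J + 1) := by
          gcongr with j hj
          exact h1 j hj
      _ = ENNReal.ofReal (((J : ℝ) + 1) * ((C + 1) * (M0 / ℓ ^ (2 * K))) + (M0 / J + 1)) := by
          have e5 : (((J + 1 : ℕ) : ℝ≥0∞)) = ENNReal.ofReal ((J : ℝ) + 1) := by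
            rw [← ENNReal.ofReal_natCast]
            push_cast
            rfl
          have h7 : 0 ≤ (C + 1) * ((M0 : ℝ) / ℓ ^ (2 * K)) := by positivity
          have h8 : 0 ≤ (M0 : ℝ) / J + 1 := by positivity
          rw [Finset.sum_const, card_range, nsmul_eq_mul, e5,
            ENNReal.ofReal_add (mul_nonneg (by positivity) h7) h8,
            ENNReal.ofReal_mul (show 0 ≤ (J : ℝ) + 1 by positivity)]
      _ ≤ _ := by
          apply ENNReal.ofReal_le_ofReal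
          rw [← hℓ]
          have h2 : (J : ℝ) + 1 ≤ (1 + 2 / Real.log 2 ^ K) * ℓ ^ K := by
            have h3 : Real.log 2 ^ K ≤ ℓ ^ K := pow_le_pow_left₀ hl2.le hℓ2 K
            have h4 : 2 ≤ 2 / Real.log 2 ^ K * ℓ ^ K := by
              rw [div_mul_eq_mul_div, le_div_iff₀ (by positivity)]
              linarith
            linarith
          have h3 : ((J : ℝ) + 1) * ((C + 1) * (M0 / ℓ ^ (2 * K))) ≤
              (1 + 2 / Real.log 2 ^ K) * (C + 1) * (M0 / ℓ ^ K) := by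
            calc ((J : ℝ) + 1) * ((C + 1) * (M0 / ℓ ^ (2 * K))) ≤
                  ((1 + 2 / Real.log 2 ^ K) * ℓ ^ K) * ((C + 1) * (M0 / ℓ ^ (2 * K))) :=
                  mul_le_mul_of_nonneg_right h2 (by positivity)
              _ = _ := by
                  rw [show 2 * K = K + K by ring, pow_add]
                  field_simp
          have h4 : (M0 : ℝ) / J ≤ M0 / ℓ ^ K := div_le_div_of_nonneg_left hMp.le hℓK hJ1
          have h5 : 1 ≤ K.factorial * ((M0 : ℝ) / ℓ ^ K) := by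
            have h6 := log_pow_le_rpow K (δ := 1) (by norm_num) (show (1 : ℝ) ≤ M0 by linarith)
            rw [Real.rpow_one, one_pow, div_one, ← hℓ] at h6
            rw [mul_div_assoc', le_div_iff₀ hℓK]
            linarith
          have e : ((1 + 2 / Real.log 2 ^ K) * (C + 1) + 1 + K.factorial) * ((M0 : ℝ) / ℓ ^ K) =
            (1 + 2 / Real.log 2 ^ K) * (C + 1) * (M0 / ℓ ^ K) + M0 / ℓ ^ K +
              K.factorial * (M0 / ℓ ^ K) := by ring
          rw [e]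
          linarith

end Pool.Agent.U996.EH
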