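import Pool.Agent.U996.EH.MaxU
import Pool.Agent.U996.UW.Dyn
import Pool.Agent.TH935.LP.L1

/-!
# The sum over the moduli
-/

set_option autoImplicit false

namespace Pool.Agent.U996.EH

open Finset MeasureTheory Filter Topology
open scoped ENNReal
open Pool.Agent.Y957.AD (PolyVar)
open Pool.Agent.Y957.VK
open Pool.Agent.U996.UW

/-- the moduli `d` with `d ^ (r + 1) ≤ X ^ r` -/
def mods (X r : ℕ) : Finset ℕ := (Icc 1 X).filter fun d => d ^ (r + 1) ≤ X ^ r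

theorem mods_size {X r κ d : ℕ} (hX : 2 ≤ X) (hκ : 2 ≤ κ) (hd : d ∈ mods X r) :
    2 ≤ κ * X / d ∧ (X : ℝ) / d ≤ ((κ * X / d : ℕ) : ℝ) ∧
      Real.log X ≤ (r + 1) * Real.log ((κ * X / d : ℕ) : ℝ) ∧ Real.log d ≤ Real.log X := by
  unfold mods at hd
  rw [mem_filter, mem_Icc] at hd
  obtain ⟨⟨hd1, hdX⟩, hdr⟩ := hd
  have h1 : 2 ≤ κ * X / d := by
    rw [Nat.le_div_iff_mul_le hd1]
    exact Nat.mul_le_mul hκ hdX
  have hd0 : (0 : ℝ) < d := by exact_mod_cast hd1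
  have hXr : (2 : ℝ) ≤ X := by exact_mod_cast hX
  have hX0 : (0 : ℝ) < X := by linarith
  have h2 : (X : ℝ) / d ≤ ((κ * X / d : ℕ) : ℝ) := by
    have h3 : κ * X < (κ * X / d + 1) * d := by
      have h := Nat.lt_mul_div_succ (κ * X) hd1
      rw [mul_comm (κ * X / d + 1)]
      exact h
    have h4 : X * 2 < (2 * (κ * X / d)) * d := by
      calc X * 2 ≤ κ * X := by nlinarith
        _ < (κ * X / d + 1) * d := h3
        _ ≤ _ := Nat.mul_le_mul_right _ (by omega)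
    have h5 : (X : ℝ) * 2 < (2 * ((κ * X / d : ℕ) : ℝ)) * d := by exact_mod_cast h4
    rw [div_le_iff₀ hd0]
    linarith
  refine ⟨h1, h2, ?_, Real.log_le_log hd0 (by exact_mod_cast hdX)⟩
  have h3 : Real.log ((X : ℝ) / d) ≤ Real.log ((κ * X / d : ℕ) : ℝ) :=
    Real.log_le_log (by positivity) h2
  rw [Real.log_div hX0.ne' hd0.ne'] at h3
  have h4 : ((r : ℝ) + 1) * Real.log d ≤ r * Real.log X := by
    have h5 : Real.log ((d : ℝ) ^ (r + 1)) ≤ Real.log ((X : ℝ) ^ r) :=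
      Real.log_le_log (by positivity) (by exact_mod_cast hdr)
    rw [Real.log_pow, Real.log_pow] at h5
    push_cast at h5
    exact h5
  nlinarith

theorem sum_u (A : ℝ → ℂ) (hA1 : ∀ x, ‖A x‖ ≤ 1) (hAm : Measurable A) (hAv : PolyVar A) (hAw : WNeg A)
    (b : ℝ) (κ r T K : ℕ) (hκ : 2 ≤ κ) (w : ℕ → ℕ → ℂ) (hw : ∀ d n, ‖w d n‖ ≤ 1) :
    ∃ C : ℝ, 0 ≤ C ∧ ∀ X : ℕ, 2 ≤ X → ∃ G : ℝ → ℝ≥0∞, Measurable G ∧
      (∀ u, ∀ M : ℕ → ℕ, (∀ d ∈ mods X r, M d * d ≤ κ * X) →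
        ∑ d ∈ mods X r, ENNReal.ofReal ((d.divisors.card : ℝ) ^ T) *
          ‖∑ n ∈ Icc 1 (M d), w d n * A (Real.exp (b + u) * d * n)‖ₑ ≤ G u) ∧
      ∫⁻ u in Set.Icc (0 : ℝ) 1, G u ≤ ENNReal.ofReal (C * (X / Real.log X ^ K)) := by
  obtain ⟨C1, hC1, hmax⟩ := max_u A hA1 hAm hAv hAw 1 one_pos (K + 2 ^ T) (⌈|b|⌉₊ + (r + 1))
  have hl2 : (0 : ℝ) < Real.log 2 := Real.log_pos (by norm_num)
  refine ⟨C1 * κ * ((r : ℝ) + 1) ^ (K + 2 ^ T) * (1 + 1 / Real.log 2) ^ (2 ^ T), by positivity, ?_⟩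
  intro X hX
  have hXr : (2 : ℝ) ≤ X := by exact_mod_cast hX
  have hX0 : (0 : ℝ) < X := by linarith
  have hLX : Real.log 2 ≤ Real.log X := Real.log_le_log (by norm_num) hXr
  have hL0 : 0 < Real.log X := by linarith
  have hB : |b| ≤ ((⌈|b|⌉₊ + (r + 1) : ℕ) : ℝ) := by
    push_cast
    have := Nat.le_ceil |b|
    have : (0 : ℝ) ≤ r := Nat.cast_nonneg r
    linarith
  have key : ∀ d : ℕ, ∃ G : ℝ → ℝ≥0∞, Measurable G ∧ (d ∈ mods X r →
      (∀ u, ∀ M : ℕ, M * d ≤ κ * X →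
        ‖∑ n ∈ Icc 1 M, w d n * A (Real.exp (b + u) * d * n)‖ₑ ≤ G u) ∧
      ∫⁻ u in Set.Icc (0 : ℝ) 1, G u ≤
        ENNReal.ofReal (C1 * κ * ((r : ℝ) + 1) ^ (K + 2 ^ T) * (X / d / Real.log X ^ (K + 2 ^ T)))) := by
    intro d
    by_cases hd : d ∈ mods X r
    · obtain ⟨s1, s2, s3, s4⟩ := mods_size hX hκ hd
      have hd1 : 1 ≤ d := by
        unfold mods at hd
        rw [mem_filter, mem_Icc] at hd
        exact hd.1.1
      have hd0 : (0 : ℝ) < d := by exact_mod_cast hd1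
      have hlogd : 0 ≤ Real.log d := Real.log_nonneg (by exact_mod_cast hd1)
      have hlM : 0 ≤ Real.log ((κ * X / d : ℕ) : ℝ) := Real.log_natCast_nonneg _
      have b1 : -((⌈|b|⌉₊ + (r + 1) : ℕ) : ℝ) ≤ b + Real.log d := by
        have := neg_abs_le b
        linarith
      have b2 : b + Real.log d ≤ ((⌈|b|⌉₊ + (r + 1) : ℕ) : ℝ) * (1 + Real.log ((κ * X / d : ℕ) : ℝ)) := by
        have h1 := le_abs_self b
        have h2 : ((r : ℝ) + 1) * Real.log ((κ * X / d : ℕ) : ℝ) ≤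
            ((⌈|b|⌉₊ + (r + 1) : ℕ) : ℝ) * Real.log ((κ * X / d : ℕ) : ℝ) := by
          apply mul_le_mul_of_nonneg_right _ hlM
          push_cast
          have : (0 : ℝ) ≤ ⌈|b|⌉₊ := Nat.cast_nonneg _
          linarith
        rw [mul_add, mul_one]
        linarith
      obtain ⟨G, g1, g2, g3⟩ := hmax _ s1 _ b1 b2 (w d) (hw d)
      refine ⟨G, g1, fun _ => ⟨?_, ?_⟩⟩
      · intro u M hM
        have h1 := g2 u M ((Nat.le_div_iff_mul_le hd1).2 hM)
        refine le_trans (le_of_eq ?_) h1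
        congr 1
        refine Finset.sum_congr rfl fun n _ => ?_
        have e1 : Real.exp (b + Real.log d + u) = Real.exp (b + u) * d := by
          rw [show b + Real.log d + u = (b + u) + Real.log d by ring, Real.exp_add (b + u),
            Real.exp_log hd0]
        rw [Real.rpow_one, e1]
      · refine g3.trans (ENNReal.ofReal_le_ofReal ?_)
        have h1 : (((κ * X / d : ℕ) : ℝ)) ≤ κ * (X / d) := by
          have := Nat.cast_div_le (α := ℝ) (m := κ * X) (n := d)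
          push_cast at this
          rw [mul_div_assoc'] 
          exact this
        have h2 : (Real.log X / (r + 1)) ^ (K + 2 ^ T) ≤ Real.log ((κ * X / d : ℕ) : ℝ) ^ (K + 2 ^ T) := by
          apply pow_le_pow_left₀ (by positivity)
          rw [div_le_iff₀ (by positivity)]
          linarith
        calc C1 * ((((κ * X / d : ℕ) : ℝ)) / Real.log ((κ * X / d : ℕ) : ℝ) ^ (K + 2 ^ T)) ≤
              C1 * ((κ * (X / d)) / (Real.log X / (r + 1)) ^ (K + 2 ^ T)) := by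
              apply mul_le_mul_of_nonneg_left _ hC1
              apply div_le_div₀ (by positivity) h1 (by positivity) h2
          _ = _ := by
              rw [div_pow]
              field_simp
    · exact ⟨fun _ => 0, measurable_const, fun h => absurd h hd⟩
  choose G g1 g2 using key
  refine ⟨fun u => ∑ d ∈ mods X r, ENNReal.ofReal ((d.divisors.card : ℝ) ^ T) * G d u, ?_, ?_, ?_⟩
  · exact Finset.measurable_fun_sum _ fun d _ => (g1 d).const_mul _
  · intro u M hM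
    refine Finset.sum_le_sum fun d hd => ?_
    gcongr
    exact (g2 d hd).1 u (M d) (hM d hd)
  · rw [lintegral_finsetSum _ fun d _ => (g1 d).const_mul _]
    have h1 : ∀ d ∈ mods X r, ∫⁻ u in Set.Icc (0 : ℝ) 1,
        ENNReal.ofReal ((d.divisors.card : ℝ) ^ T) * G d u ≤
        ENNReal.ofReal ((d.divisors.card : ℝ) ^ T *
          (C1 * κ * ((r : ℝ) + 1) ^ (K + 2 ^ T) * (X / d / Real.log X ^ (K + 2 ^ T)))) := by
      intro d hd
      rw [lintegral_const_mul _ (g1 d), ENNReal.ofReal_mul (by positivity)]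
      gcongr
      exact (g2 d hd).2
    refine (Finset.sum_le_sum h1).trans ?_
    rw [← ENNReal.ofReal_sum_of_nonneg fun d _ => by positivity]
    apply ENNReal.ofReal_le_ofReal
    have h2 := Pool.Agent.TH935.LD.tau_pow_div T X
    have h3 : ∑ d ∈ mods X r, (d.divisors.card : ℝ) ^ T / d ≤
        ∑ d ∈ Icc 1 X, (d.divisors.card : ℝ) ^ T / d :=
      Finset.sum_le_sum_of_subset_of_nonneg (Finset.filter_subset _ _) fun d _ _ => by positivity
    have h4 : (1 + Real.log X) ^ (2 ^ T) ≤ ((1 + 1 / Real.log 2) * Real.log X) ^ (2 ^ T) := by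
      apply pow_le_pow_left₀ (by positivity)
      have : 1 ≤ 1 / Real.log 2 * Real.log X := by
        rw [div_mul_eq_mul_div, le_div_iff₀ hl2]
        linarith
      linarith
    calc ∑ d ∈ mods X r, (d.divisors.card : ℝ) ^ T *
          (C1 * κ * ((r : ℝ) + 1) ^ (K + 2 ^ T) * (X / d / Real.log X ^ (K + 2 ^ T))) =
          (C1 * κ * ((r : ℝ) + 1) ^ (K + 2 ^ T) * (X / Real.log X ^ (K + 2 ^ T))) *
            ∑ d ∈ mods X r, (d.divisors.card : ℝ) ^ T / d := by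
          rw [Finset.mul_sum]
          exact Finset.sum_congr rfl fun d _ => by ring
      _ ≤ (C1 * κ * ((r : ℝ) + 1) ^ (K + 2 ^ T) * (X / Real.log X ^ (K + 2 ^ T))) *
            ((1 + 1 / Real.log 2) * Real.log X) ^ (2 ^ T) :=
          mul_le_mul_of_nonneg_left (h3.trans (h2.trans h4)) (by positivity)
      _ = _ := by
          obtain ⟨ℓ, hℓ⟩ : ∃ ℓ : ℝ, ℓ = Real.log X := ⟨_, rfl⟩
          rw [← hℓ] at hL0 ⊢
          rw [mul_pow _ ℓ, pow_add ℓ]
          field_simp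

/-- **almost every parameter, dyadic ranges** -/
theorem ae_u (A : ℝ → ℂ) (hA1 : ∀ x, ‖A x‖ ≤ 1) (hAm : Measurable A) (hAv : PolyVar A) (hAw : WNeg A)
    (b : ℝ) (κ r T K : ℕ) (hκ : 2 ≤ κ) (w : ℕ → ℕ → ℂ) (hw : ∀ d n, ‖w d n‖ ≤ 1) :
    ∀ᵐ u ∂((volume : Measure ℝ).restrict (Set.Icc (0 : ℝ) 1)), ∀ᶠ i : ℕ in atTop, ∀ M : ℕ → ℕ,
      (∀ d ∈ mods (2 ^ i) r, M d * d ≤ κ * 2 ^ i) →
      ∑ d ∈ mods (2 ^ i) r, (d.divisors.card : ℝ) ^ T *
        ‖∑ n ∈ Icc 1 (M d), w d n * A (Real.exp (b + u) * d * n)‖ ≤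
        ((2 ^ i : ℕ) : ℝ) / Real.log ((2 ^ i : ℕ) : ℝ) ^ K := by
  obtain ⟨C, hC, hsum⟩ := sum_u A hA1 hAm hAv hAw b κ r T (K + 2) hκ w hw
  have hl2 : (0 : ℝ) < Real.log 2 := Real.log_pos (by norm_num)
  have hex : ∀ i : ℕ, ∃ G : ℝ → ℝ≥0∞, Measurable G ∧
      (∀ u, ∀ M : ℕ → ℕ, (∀ d ∈ mods (2 ^ (i + 1)) r, M d * d ≤ κ * 2 ^ (i + 1)) →
        ∑ d ∈ mods (2 ^ (i + 1)) r, ENNReal.ofReal ((d.divisors.card : ℝ) ^ T) *
          ‖∑ n ∈ Icc 1 (M d), w d n * A (Real.exp (b + u) * d * n)‖ₑ ≤ G u) ∧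
      ∫⁻ u in Set.Icc (0 : ℝ) 1, G u ≤
        ENNReal.ofReal (C * (((2 ^ (i + 1) : ℕ) : ℝ) / Real.log ((2 ^ (i + 1) : ℕ) : ℝ) ^ (K + 2))) :=
    fun i => hsum (2 ^ (i + 1)) (by rw [pow_succ]; have := Nat.one_le_two_pow (n := i); omega)
  choose G g1 g2 g3 using hex
  obtain ⟨X, hX⟩ : ∃ X : ℕ → ℝ, X = fun i => ((2 ^ (i + 1) : ℕ) : ℝ) := ⟨_, rfl⟩
  have hX0 : ∀ i, 0 < X i := fun i => by rw [hX]; positivity
  have hlogX : ∀ i, Real.log (X i) = ((i + 1 : ℕ) : ℝ) * Real.log 2 := fun i => by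
    rw [hX]
    show Real.log ((2 ^ (i + 1) : ℕ) : ℝ) = _
    rw [Nat.cast_pow, Real.log_pow, Nat.cast_ofNat]
  have hlog0 : ∀ i, 0 < Real.log (X i) := fun i => by
    rw [hlogX]
    positivity
  have hfin : ∫⁻ u in Set.Icc (0 : ℝ) 1, ∑' i, ENNReal.ofReal (Real.log (X i) ^ K / X i) * G i u ≠ ⊤ := by
    rw [lintegral_tsum fun i => ((g1 i).const_mul _).aemeasurable]
    have h1 : ∀ i, ∫⁻ u in Set.Icc (0 : ℝ) 1, ENNReal.ofReal (Real.log (X i) ^ K / X i) * G i u ≤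
        ENNReal.ofReal (C / Real.log 2 ^ 2 * (1 / ((i + 1 : ℕ) : ℝ) ^ 2)) := by
      intro i
      rw [lintegral_const_mul _ (g1 i)]
      have h2 : ∫⁻ u in Set.Icc (0 : ℝ) 1, G i u ≤
        ENNReal.ofReal (C * (X i / Real.log (X i) ^ (K + 2))) := by
        rw [hX]
        exact g3 i
      calc ENNReal.ofReal (Real.log (X i) ^ K / X i) * ∫⁻ u in Set.Icc (0 : ℝ) 1, G i u ≤
            ENNReal.ofReal (Real.log (X i) ^ K / X i) *
              ENNReal.ofReal (C * (X i / Real.log (X i) ^ (K + 2))) := by gcongr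
        _ = ENNReal.ofReal (Real.log (X i) ^ K / X i * (C * (X i / Real.log (X i) ^ (K + 2)))) := by
            rw [← ENNReal.ofReal_mul]
            have := hlog0 i
            have := hX0 i
            positivity
        _ = _ := by
            congr 1
            have h3 := hlog0 i
            have h4 := hX0 i
            rw [pow_add]
            have h5 : Real.log (X i) ^ 2 = Real.log 2 ^ 2 * ((i + 1 : ℕ) : ℝ) ^ 2 := by
              rw [hlogX]
              ring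
            rw [h5]
            field_simp
    refine ne_top_of_le_ne_top ?_ (ENNReal.tsum_le_tsum h1)
    have h2 : Summable fun i : ℕ => C / Real.log 2 ^ 2 * (1 / ((i + 1 : ℕ) : ℝ) ^ 2) := by
      apply Summable.mul_left
      exact (summable_nat_add_iff (f := fun n : ℕ => 1 / (n : ℝ) ^ 2) 1).2
        (Real.summable_one_div_nat_pow.2 one_lt_two)
    exact h2.tsum_ofReal_ne_top
  have hae : ∀ᵐ u ∂((volume : Measure ℝ).restrict (Set.Icc (0 : ℝ) 1)),
      ∑' i, ENNReal.ofReal (Real.log (X i) ^ K / X i) * G i u < ⊤ :=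
    ae_lt_top' (Measurable.ennreal_tsum fun i => (g1 i).const_mul _).aemeasurable hfin
  filter_upwards [hae] with u hu
  have ht := ENNReal.tendsto_atTop_zero_of_tsum_ne_top hu.ne
  have hev : ∀ᶠ i : ℕ in atTop, ENNReal.ofReal (Real.log (X i) ^ K / X i) * G i u < 1 :=
    ht.eventually (gt_mem_nhds zero_lt_one)
  obtain ⟨i0, hi0⟩ := hev.exists_forall_of_atTop
  refine eventually_atTop.2 ⟨i0 + 1, fun i hi M hM => ?_⟩
  obtain ⟨j, rfl⟩ : ∃ j, i = j + 1 := ⟨i - 1, by omega⟩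
  have h1 := hi0 j (by omega)
  have h2 := g2 j u M hM
  have h3 : ENNReal.ofReal (∑ d ∈ mods (2 ^ (j + 1)) r, (d.divisors.card : ℝ) ^ T *
        ‖∑ n ∈ Icc 1 (M d), w d n * A (Real.exp (b + u) * d * n)‖) ≤ G j u := by
    refine le_trans (le_of_eq ?_) h2
    rw [ENNReal.ofReal_sum_of_nonneg fun d _ => by positivity]
    refine Finset.sum_congr rfl fun d _ => ?_
    rw [ENNReal.ofReal_mul (by positivity), ofReal_norm]
  have h4 : ENNReal.ofReal (Real.log (X j) ^ K / X j) *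
      ENNReal.ofReal (∑ d ∈ mods (2 ^ (j + 1)) r, (d.divisors.card : ℝ) ^ T *
        ‖∑ n ∈ Icc 1 (M d), w d n * A (Real.exp (b + u) * d * n)‖) < 1 :=
    lt_of_le_of_lt (mul_le_mul_right h3 _) h1
  have h5 := hlog0 j
  have h6 := hX0 j
  rw [← ENNReal.ofReal_mul (by positivity), ← ENNReal.ofReal_one, ENNReal.ofReal_lt_ofReal_iff one_pos] at h4
  have h7 : X j = ((2 ^ (j + 1) : ℕ) : ℝ) := by rw [hX]
  rw [← h7, le_div_iff₀ (by positivity)]
  rw [div_mul_eq_mul_div, div_lt_one h6] at h4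
  linarith

end Pool.Agent.U996.EH
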